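import Pool.Agent.Helper9.CQ.Words

/-! Contraction (module CONTR). -/

namespace CQ
open CC Finset Filter Topology

/-- integration of `q ^ counter` -/
noncomputable def tq (q : ℝ) : M →ₗ[ℂ] ℂ := itg (fun X => ((q ^ X.2 : ℝ) : ℂ))

/-- expectation of `q ^ counter` after `N` double rows, start in `X` -/
noncomputable def v (q : ℝ) (L N : ℕ) (X : Q) : ℝ :=
  (tq q (((Ts L) ^ N) (Finsupp.single X 1))).re

/-- recursion of all integrals -/
private theorem itg_rec (L N : ℕ) (g : Q → ℂ) {φ : Fin (4 ^ L) → Q → Q}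
    (hφ : ∀ (g : Q → ℂ) (x : M), itg g (Ts L x) = itg (fun X => (4 ^ L : ℂ)⁻¹ * ∑ a, g (φ a X)) x)
    (X : Q) : itg g (((Ts L) ^ (N + 1)) (Finsupp.single X 1)) =
      (4 ^ L : ℂ)⁻¹ * ∑ a, itg g (((Ts L) ^ N) (Finsupp.single (φ a X) 1)) := by
  rw [pow_step, hφ, itg_single, mul_one]

private theorem itg_zero (L : ℕ) (g : Q → ℂ) (X : Q) :
    itg g (((Ts L) ^ 0) (Finsupp.single X 1)) = g X := by
  rw [pow_zero, Module.End.one_apply, itg_single, mul_one]

theorem v_eq (q : ℝ) (L N : ℕ) (X : Q) : tq q (((Ts L) ^ N) (Finsupp.single X 1)) = (v q L N X : ℂ) := by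
  obtain ⟨φ, hφ, -⟩ := words L
  have key : ∀ X, (tq q (((Ts L) ^ N) (Finsupp.single X 1))).im = 0 := by
    induction N with
    | zero => intro X; rw [tq, itg_zero]; exact Complex.ofReal_im _
    | succ N ih =>
      intro X
      rw [tq, itg_rec L N _ hφ, show (4 ^ L : ℂ)⁻¹ = (((4 ^ L : ℝ)⁻¹ : ℝ) : ℂ) by push_cast; rfl,
        Complex.im_ofReal_mul, Complex.im_sum, Finset.sum_eq_zero, mul_zero]
      intro a _
      exact ih (φ a X)
  apply Complex.ext
  · rfl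
  · rw [key X]; exact (Complex.ofReal_im _).symm

theorem v_zero (q : ℝ) (L : ℕ) (X : Q) : v q L 0 X = q ^ X.2 := by
  rw [v, tq, itg_zero]
  exact Complex.ofReal_re _

private theorem v_rec (q : ℝ) (L N : ℕ) {φ : Fin (4 ^ L) → Q → Q}
    (hφ : ∀ (g : Q → ℂ) (x : M), itg g (Ts L x) = itg (fun X => (4 ^ L : ℂ)⁻¹ * ∑ a, g (φ a X)) x)
    (X : Q) : v q L (N + 1) X = (4 ^ L : ℝ)⁻¹ * ∑ a, v q L N (φ a X) := by
  rw [v, tq, itg_rec L N _ hφ, show (4 ^ L : ℂ)⁻¹ = (((4 ^ L : ℝ)⁻¹ : ℝ) : ℂ) by push_cast; rfl,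
    Complex.re_ofReal_mul, Complex.re_sum]
  rfl

theorem v_pos {q : ℝ} (hq : 0 < q) (L N : ℕ) (X : Q) : 0 < v q L N X := by
  obtain ⟨φ, hφ, -⟩ := words L
  induction N generalizing X with
  | zero => rw [v_zero]; positivity
  | succ N ih =>
    rw [v_rec q L N hφ]
    have : Nonempty (Fin (4 ^ L)) := ⟨⟨0, by positivity⟩⟩
    exact mul_pos (by positivity) (Finset.sum_pos (fun a _ => ih _) Finset.univ_nonempty)

/-- homogeneity passes to the iterates -/
private theorem itg_sh {q : ℂ} (L N : ℕ) (h : Q → ℂ) (hh : ∀ X, h (sh X) = q * h X)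
    {φ : Fin (4 ^ L) → Q → Q}
    (hφ : ∀ (g : Q → ℂ) (x : M), itg g (Ts L x) = itg (fun X => (4 ^ L : ℂ)⁻¹ * ∑ a, g (φ a X)) x)
    (hsh : ∀ a X, φ a (sh X) = sh (φ a X)) (X : Q) :
    itg h (((Ts L) ^ N) (Finsupp.single (sh X) 1)) =
      q * itg h (((Ts L) ^ N) (Finsupp.single X 1)) := by
  induction N generalizing X with
  | zero => rw [itg_zero, itg_zero, hh]
  | succ N ih =>
    rw [itg_rec L N _ hφ, itg_rec L N _ hφ, mul_left_comm, Finset.mul_sum (a := q)]
    congr 1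
    refine Finset.sum_congr rfl fun a _ => ?_
    rw [hsh, ih]

theorem v_sh {q : ℝ} (hq : 0 < q) (L N : ℕ) (X : Q) : v q L N (sh X) = q * v q L N X := by
  obtain ⟨φ, hφ, hsh, -⟩ := words L
  have h := itg_sh (q := (q : ℂ)) L N (fun X => ((q ^ X.2 : ℝ) : ℂ)) (fun X => by
    simp only [sh]
    rw [zpow_add_one₀ hq.ne']
    push_cast
    ring) hφ hsh X
  change tq q _ = _ * tq q _ at h
  rw [v_eq, v_eq, ← Complex.ofReal_mul] at h
  exact Complex.ofReal_injective h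

/-- iterated homogeneity -/
private theorem hom_zpow {q : ℂ} (hq : q ≠ 0) {h : Q → ℂ} (hh : ∀ X, h (sh X) = q * h X) (F : Fr)
    (c c' : ℤ) : h (F, c) = q ^ (c - c') * h (F, c') := by
  have key : ∀ c : ℤ, h (F, c) = q ^ c * h (F, 0) := by
    intro c
    induction c using Int.induction_on with
    | zero => simp
    | succ i hi =>
      have := hh (F, (i : ℤ))
      simp only [sh] at this
      rw [this, hi, zpow_add_one₀ hq]
      ring
    | pred i hi =>
      have := hh (F, -(i : ℤ) - 1)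
      simp only [sh, sub_add_cancel] at this
      rw [this] at hi
      rw [zpow_sub_one₀ hq]
      have h2 : h (F, -(i : ℤ) - 1) = q⁻¹ * (q * h (F, -(i : ℤ) - 1)) := by
        rw [← mul_assoc, inv_mul_cancel₀ hq, one_mul]
      rw [h2, hi]
      ring
  rw [key c, key c', ← mul_assoc, ← zpow_add₀ hq]
  congr 2
  ring

private theorem v_shz {q : ℝ} (hq : 0 < q) (L N : ℕ) (F : Fr) (c c' : ℤ) :
    v q L N (F, c) = q ^ (c - c') * v q L N (F, c') := by
  have h := hom_zpow (q := (q : ℂ)) (by exact_mod_cast hq.ne') (h := fun X => (v q L N X : ℂ))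
    (fun X => by rw [v_sh hq]; push_cast; rfl) F c c'
  apply Complex.ofReal_injective
  rw [h]
  push_cast
  rfl

private theorem one_le_m {q : ℝ} (hq : 0 < q) : 1 ≤ max q q⁻¹ := by
  rcases le_total 1 q with h | h
  · exact h.trans (le_max_left _ _)
  · exact ((one_le_inv₀ hq).mpr h).trans (le_max_right _ _)

private theorem zpow_le_m {q : ℝ} (hq : 0 < q) {z : ℤ} {K : ℕ} (h : |z| ≤ K) :
    q ^ z ≤ (max q q⁻¹) ^ K := by
  have h1 := one_le_m hq
  have h2 : q ^ z ≤ (max q q⁻¹) ^ z.natAbs := by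
    rcases le_total 0 z with hz | hz
    · have e : q ^ z = q ^ z.natAbs := by
        rw [← zpow_natCast, Int.natAbs_of_nonneg hz]
      rw [e]
      exact pow_le_pow_left₀ hq.le (le_max_left _ _) _
    · have e : q ^ z = q⁻¹ ^ z.natAbs := by
        rw [← zpow_natCast, inv_zpow, ← zpow_neg, Int.ofNat_natAbs_of_nonpos hz, neg_neg]
      rw [e]
      exact pow_le_pow_left₀ (inv_nonneg.mpr hq.le) (le_max_right _ _) _
  refine h2.trans (pow_le_pow_right₀ h1 ?_)
  have h3 : ((z.natAbs : ℕ) : ℤ) ≤ K := by rw [Int.natCast_natAbs]; exact h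
  exact_mod_cast h3

theorem v_near {q : ℝ} (hq : 0 < q) (L N K : ℕ) {X Y : Q} (h : Near K X Y) :
    v q L N X ≤ (max q q⁻¹) ^ K * v q L N Y := by
  obtain ⟨φ, hφ, -, hn, -⟩ := words L
  induction N generalizing X Y with
  | zero =>
    rw [v_zero, v_zero]
    have h1 := zpow_le_m hq h.cnt
    have h2 : q ^ X.2 = q ^ (X.2 - Y.2) * q ^ Y.2 := by
      rw [← zpow_add₀ hq.ne']; congr 1; ring
    rw [h2]
    exact mul_le_mul_of_nonneg_right h1 (by positivity)
  | succ N ih =>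
    rw [v_rec q L N hφ, v_rec q L N hφ, mul_left_comm, Finset.mul_sum (a := (max q q⁻¹) ^ K)]
    exact mul_le_mul_of_nonneg_left (Finset.sum_le_sum fun a _ => ih (hn a K X Y h))
      (by positivity)

private theorem Rset_fst {L : ℕ} {X : Q} (c : ℤ) (h : X ∈ Rset L) : ((X.1, c) : Q) ∈ Rset L := h

theorem v_cmp {q : ℝ} (hq : 0 < q) (L N : ℕ) {X Y : Q} (hX : X ∈ Rset L) (hY : Y ∈ Rset L) :
    v q L N X ≤ (max q q⁻¹) ^ (L + 1) * q ^ (X.2 - Y.2) * v q L N Y := by
  have h1 : v q L N X = q ^ (X.2 - Y.2) * v q L N (X.1, Y.2) := v_shz hq L N X.1 X.2 Y.2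
  have h2 := v_near hq L N (L + 1) (near_mem (Rset_fst Y.2 hX) hY rfl)
  rw [h1, mul_comm ((max q q⁻¹) ^ (L + 1)), mul_assoc]
  exact mul_le_mul_of_nonneg_left h2 (by positivity)

/-- the rate of convergence -/
noncomputable def ee (q : ℝ) (L : ℕ) : ℝ := (4 ^ L * (max q q⁻¹) ^ (3 * L + 2))⁻¹ ^ 2

theorem ee_pos {q : ℝ} (hq : 0 < q) (L : ℕ) : 0 < ee q L := by
  have h1 := one_le_m hq
  unfold ee
  positivity

theorem ee_le {q : ℝ} (hq : 0 < q) (L : ℕ) : ee q L ≤ 1 := by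
  have h1 := one_le_m hq
  unfold ee
  have h2 : (1 : ℝ) ≤ 4 ^ L * (max q q⁻¹) ^ (3 * L + 2) := by
    have e1 : (1 : ℝ) ≤ 4 ^ L := one_le_pow₀ (by norm_num)
    have e2 : (1 : ℝ) ≤ (max q q⁻¹) ^ (3 * L + 2) := one_le_pow₀ h1
    nlinarith
  exact pow_le_one₀ (by positivity) (inv_le_one_of_one_le₀ h2)

/-- Proof: `H N X Y = h_N(X) v_N(Y) - h_N(Y) v_N(X)` (`h_N(X) = itg h (Ts ^ N X)`) satisfies
`‖H N X Y‖ ≤ 2 C (1 - ee) ^ N v_N(X) v_N(Y)` on `Rset L`: the double average of `H N` is `H (N+1)`, and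
`H N (φ a X) (φ a Y) = 0` for the special word `a`; `v_(N+1)(X) ≤ (max q q⁻¹)^(3L+2) v_N(φ a X)`. -/
theorem osc {q : ℝ} (hq : 0 < q) (L : ℕ) (h : Q → ℂ) (hh : ∀ X, h (sh X) = q * h X) (C : ℝ)
    (hC : ∀ X ∈ Rset L, ‖h X‖ ≤ C * q ^ X.2) (N : ℕ) :
    ∀ X ∈ Rset L, ∀ Y ∈ Rset L,
      ‖itg h (((Ts L) ^ N) (Finsupp.single X 1)) * v q L N Y -
        itg h (((Ts L) ^ N) (Finsupp.single Y 1)) * v q L N X‖ ≤
      2 * C * (1 - ee q L) ^ N * (v q L N X * v q L N Y) := by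
  obtain ⟨φ, hφ, hsh, hn, hR, hcnt, a0, ha0⟩ := words L
  have hqC : (q : ℂ) ≠ 0 := by exact_mod_cast hq.ne'
  have hm := one_le_m hq
  induction N with
  | zero =>
    intro X hX Y hY
    rw [itg_zero, itg_zero, v_zero, v_zero]
    have h1 := hC X hX
    have h2 := hC Y hY
    have hx : 0 < q ^ X.2 := by positivity
    have hy : 0 < q ^ Y.2 := by positivity
    calc ‖h X * ((q ^ Y.2 : ℝ) : ℂ) - h Y * ((q ^ X.2 : ℝ) : ℂ)‖
        ≤ ‖h X * ((q ^ Y.2 : ℝ) : ℂ)‖ + ‖h Y * ((q ^ X.2 : ℝ) : ℂ)‖ := norm_sub_le _ _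
      _ = ‖h X‖ * q ^ Y.2 + ‖h Y‖ * q ^ X.2 := by
        rw [norm_mul, norm_mul, Complex.norm_real, Complex.norm_real, Real.norm_of_nonneg hy.le,
          Real.norm_of_nonneg hx.le]
      _ ≤ C * q ^ X.2 * q ^ Y.2 + C * q ^ Y.2 * q ^ X.2 :=
        add_le_add (mul_le_mul_of_nonneg_right h1 hy.le) (mul_le_mul_of_nonneg_right h2 hx.le)
      _ = 2 * C * (1 - ee q L) ^ 0 * (q ^ X.2 * q ^ Y.2) := by ring
  | succ N ih =>
    intro X hX Y hY
    have hC0 : 0 ≤ C := by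
      have h1 := (norm_nonneg _).trans (hC X hX)
      have hx : 0 < q ^ X.2 := by positivity
      exact nonneg_of_mul_nonneg_left h1 hx
    set H : Q → ℂ := fun X => itg h (((Ts L) ^ N) (Finsupp.single X 1)) with hH
    have hHz : ∀ F c c', H (F, c) = (q : ℂ) ^ (c - c') * H (F, c') := fun F c c' =>
      hom_zpow hqC (h := H) (fun X => itg_sh L N h hh hφ hsh X) F c c'
    set A : ℝ := 2 * C * (1 - ee q L) ^ N with hA
    have hA0 : 0 ≤ A := by
      have := ee_le hq L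
      have : 0 ≤ 1 - ee q L := by linarith
      positivity
    have ih' : ∀ X ∈ Rset L, ∀ Y ∈ Rset L,
      ‖H X * v q L N Y - H Y * v q L N X‖ ≤ A * (v q L N X * v q L N Y) := ih
    -- the double sum
    have e1 : itg h (((Ts L) ^ (N + 1)) (Finsupp.single X 1)) * v q L (N + 1) Y -
        itg h (((Ts L) ^ (N + 1)) (Finsupp.single Y 1)) * v q L (N + 1) X =
        (4 ^ L : ℂ)⁻¹ ^ 2 * ∑ a, ∑ b, (H (φ a X) * v q L N (φ b Y) - H (φ b Y) * v q L N (φ a X)) := by
      rw [itg_rec L N h hφ, itg_rec L N h hφ, v_rec q L N hφ, v_rec q L N hφ]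
      simp only [Finset.sum_sub_distrib]
      rw [← Finset.sum_mul_sum, Finset.sum_comm (f := fun a b => H (φ b Y) * (v q L N (φ a X) : ℂ)),
        ← Finset.sum_mul_sum]
      push_cast
      simp only [hH]
      ring
    -- the special term
    have e2 : H (φ a0 X) * v q L N (φ a0 Y) - H (φ a0 Y) * v q L N (φ a0 X) = 0 := by
      have h1 := ha0 X hX Y hY
      have h2 : φ a0 X = ((φ a0 Y).1, (φ a0 X).2) := by rw [← h1]
      have h3 := hHz (φ a0 Y).1 (φ a0 X).2 (φ a0 Y).2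
      have h4 := v_shz hq L N (φ a0 Y).1 (φ a0 X).2 (φ a0 Y).2
      rw [← h2] at h3 h4
      rw [h3, h4]
      push_cast
      ring
    -- bound of the double sum
    have e3 : ‖∑ a, ∑ b, (H (φ a X) * v q L N (φ b Y) - H (φ b Y) * v q L N (φ a X))‖ ≤
        A * ((∑ a, v q L N (φ a X)) * (∑ b, v q L N (φ b Y)) -
          v q L N (φ a0 X) * v q L N (φ a0 Y)) := by
      rw [← Finset.sum_product' Finset.univ Finset.univ
        (fun a b => H (φ a X) * (v q L N (φ b Y) : ℂ) - H (φ b Y) * (v q L N (φ a X) : ℂ)),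
        Finset.sum_mul_sum, ← Finset.sum_product' Finset.univ Finset.univ
        (fun a b => v q L N (φ a X) * v q L N (φ b Y)),
        ← Finset.add_sum_erase (Finset.univ ×ˢ Finset.univ) (fun x : Fin (4 ^ L) × Fin (4 ^ L) =>
          H (φ x.1 X) * (v q L N (φ x.2 Y) : ℂ) - H (φ x.2 Y) * (v q L N (φ x.1 X) : ℂ))
          (show (a0, a0) ∈ (Finset.univ ×ˢ Finset.univ : Finset (Fin (4 ^ L) × Fin (4 ^ L))) by simp),
        ← Finset.add_sum_erase (Finset.univ ×ˢ Finset.univ) (fun x : Fin (4 ^ L) × Fin (4 ^ L) =>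
          v q L N (φ x.1 X) * v q L N (φ x.2 Y))
          (show (a0, a0) ∈ (Finset.univ ×ˢ Finset.univ : Finset (Fin (4 ^ L) × Fin (4 ^ L))) by simp)]
      simp only [e2, zero_add]
      rw [add_sub_cancel_left, Finset.mul_sum]
      refine (norm_sum_le _ _).trans (Finset.sum_le_sum fun x _ => ?_)
      exact ih' _ (hR x.1 X hX) _ (hR x.2 Y hY)
    -- the special word has a large weight
    have e4 : ∀ Z ∈ Rset L, v q L (N + 1) Z ≤ (max q q⁻¹) ^ (3 * L + 2) * v q L N (φ a0 Z) := by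
      intro Z hZ
      rw [v_rec q L N hφ]
      have h1 : ∀ a : Fin (4 ^ L), v q L N (φ a Z) ≤
          (max q q⁻¹) ^ (3 * L + 2) * v q L N (φ a0 Z) := by
        intro a
        refine (v_cmp hq L N (hR a Z hZ) (hR a0 Z hZ)).trans ?_
        apply mul_le_mul_of_nonneg_right _ (v_pos hq L N _).le
        have h2 : q ^ ((φ a Z).2 - (φ a0 Z).2) ≤ (max q q⁻¹) ^ (2 * L + 1) := by
          apply zpow_le_m hq
          have k1 := hcnt a Z
          have k2 := hcnt a0 Z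
          rw [abs_le]
          push_cast
          constructor <;> linarith [k1.1, k1.2, k2.1, k2.2]
        calc (max q q⁻¹) ^ (L + 1) * q ^ ((φ a Z).2 - (φ a0 Z).2)
            ≤ (max q q⁻¹) ^ (L + 1) * (max q q⁻¹) ^ (2 * L + 1) :=
              mul_le_mul_of_nonneg_left h2 (by positivity)
          _ = _ := by rw [← pow_add]; congr 1; ring
      calc (4 ^ L : ℝ)⁻¹ * ∑ a, v q L N (φ a Z)
          ≤ (4 ^ L : ℝ)⁻¹ * ∑ _a : Fin (4 ^ L), (max q q⁻¹) ^ (3 * L + 2) * v q L N (φ a0 Z) :=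
            mul_le_mul_of_nonneg_left (Finset.sum_le_sum fun a _ => h1 a) (by positivity)
        _ = _ := by
          rw [Finset.sum_const, Finset.card_univ, Fintype.card_fin, nsmul_eq_mul]
          push_cast
          rw [← mul_assoc, inv_mul_cancel₀ (by positivity), one_mul]
    have e5 : ee q L * (v q L (N + 1) X * v q L (N + 1) Y) ≤
        (4 ^ L : ℝ)⁻¹ ^ 2 * (v q L N (φ a0 X) * v q L N (φ a0 Y)) := by
      have k1 := e4 X hX
      have k2 := e4 Y hY
      have p1 := v_pos hq L (N + 1) X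
      have p2 := v_pos hq L (N + 1) Y
      have k3 := mul_le_mul k1 k2 p2.le (p1.le.trans k1)
      have hm0 : 0 < max q q⁻¹ := by linarith
      have k4 : ee q L = (4 ^ L : ℝ)⁻¹ ^ 2 * (((max q q⁻¹) ^ (3 * L + 2))⁻¹) ^ 2 := by
        unfold ee
        rw [mul_inv, mul_pow]
      rw [k4, mul_assoc]
      apply mul_le_mul_of_nonneg_left _ (by positivity)
      calc (((max q q⁻¹) ^ (3 * L + 2))⁻¹) ^ 2 * (v q L (N + 1) X * v q L (N + 1) Y)
          ≤ (((max q q⁻¹) ^ (3 * L + 2))⁻¹) ^ 2 * ((max q q⁻¹) ^ (3 * L + 2) * v q L N (φ a0 X) *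
            ((max q q⁻¹) ^ (3 * L + 2) * v q L N (φ a0 Y))) :=
            mul_le_mul_of_nonneg_left k3 (by positivity)
        _ = _ := by
          have : (max q q⁻¹) ^ (3 * L + 2) ≠ 0 := by positivity
          field_simp
    rw [e1, norm_mul, norm_pow, norm_inv, norm_pow]
    have e6 : ‖(4 : ℂ)‖ = 4 := by norm_num
    rw [e6]
    calc (4 ^ L : ℝ)⁻¹ ^ 2 *
          ‖∑ a, ∑ b, (H (φ a X) * v q L N (φ b Y) - H (φ b Y) * v q L N (φ a X))‖
        ≤ (4 ^ L : ℝ)⁻¹ ^ 2 * (A * ((∑ a, v q L N (φ a X)) * (∑ b, v q L N (φ b Y)) -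
          v q L N (φ a0 X) * v q L N (φ a0 Y))) := mul_le_mul_of_nonneg_left e3 (by positivity)
      _ = A * (v q L (N + 1) X * v q L (N + 1) Y -
          (4 ^ L : ℝ)⁻¹ ^ 2 * (v q L N (φ a0 X) * v q L N (φ a0 Y))) := by
        rw [v_rec q L N hφ X, v_rec q L N hφ Y]
        ring
      _ ≤ A * (v q L (N + 1) X * v q L (N + 1) Y -
          ee q L * (v q L (N + 1) X * v q L (N + 1) Y)) := by
        apply mul_le_mul_of_nonneg_left _ hA0
        linarith
      _ = 2 * C * (1 - ee q L) ^ (N + 1) * (v q L (N + 1) X * v q L (N + 1) Y) := by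
        rw [hA, pow_succ]; ring

theorem ratio {q : ℝ} (hq : 0 < q) (L : ℕ) (h : Q → ℂ) (hh : ∀ X, h (sh X) = q * h X) (C : ℝ)
    (hC : ∀ X ∈ Rset L, ‖h X‖ ≤ C * q ^ X.2) : ∃ l : ℂ, ∀ N, ∀ X ∈ Rset L,
      ‖itg h (((Ts L) ^ N) (Finsupp.single X 1)) - l * v q L N X‖ ≤
        2 * C * (1 - ee q L) ^ N * v q L N X := by
  obtain ⟨φ, hφ, hsh, hn, hR, hcnt, -⟩ := words L
  have hX0 : ((F0, 0) : Q) ∈ Rset L := F0_mem L 0
  have hC0 : 0 ≤ C := by
    have h1 := (norm_nonneg _).trans (hC _ hX0)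
    simpa using h1
  set H : ℕ → Q → ℂ := fun N X => itg h (((Ts L) ^ N) (Finsupp.single X 1)) with hH
  set A : ℕ → ℝ := fun N => 2 * C * (1 - ee q L) ^ N with hA
  have hee : 0 ≤ 1 - ee q L := by have := ee_le hq L; linarith
  have hee' : 1 - ee q L < 1 := by have := ee_pos hq L; linarith
  have hA0 : ∀ N, 0 ≤ A N := fun N => by simp only [hA]; positivity
  -- comparison of different times
  have key : ∀ N k, ∀ X ∈ Rset L, ∀ Y ∈ Rset L,
      ‖H (N + k) X * v q L N Y - H N Y * v q L (N + k) X‖ ≤ A N * (v q L (N + k) X * v q L N Y) := by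
    intro N k
    induction k with
    | zero => exact osc hq L h hh C hC N
    | succ k ih =>
      intro X hX Y hY
      have e1 : H (N + (k + 1)) X = (4 ^ L : ℂ)⁻¹ * ∑ a, H (N + k) (φ a X) := itg_rec L (N + k) h hφ X
      have e2 : v q L (N + (k + 1)) X = (4 ^ L : ℝ)⁻¹ * ∑ a, v q L (N + k) (φ a X) :=
        v_rec q L (N + k) hφ X
      have e3 : H (N + (k + 1)) X * v q L N Y - H N Y * v q L (N + (k + 1)) X =
          (4 ^ L : ℂ)⁻¹ * ∑ a, (H (N + k) (φ a X) * v q L N Y - H N Y * v q L (N + k) (φ a X)) := by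
        rw [e1, e2, Finset.sum_sub_distrib, ← Finset.sum_mul, ← Finset.mul_sum]
        push_cast
        ring
      rw [e3, norm_mul, norm_inv, norm_pow, show ‖(4 : ℂ)‖ = 4 by norm_num, e2]
      calc (4 ^ L : ℝ)⁻¹ * ‖∑ a, (H (N + k) (φ a X) * v q L N Y - H N Y * v q L (N + k) (φ a X))‖
          ≤ (4 ^ L : ℝ)⁻¹ * ∑ a, A N * (v q L (N + k) (φ a X) * v q L N Y) := by
            apply mul_le_mul_of_nonneg_left _ (by positivity)
            exact (norm_sum_le _ _).trans (Finset.sum_le_sum fun a _ => ih _ (hR a X hX) Y hY)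
        _ = _ := by
          rw [← Finset.mul_sum, ← Finset.sum_mul]
          ring
  -- the ratios
  set r : ℕ → Q → ℂ := fun N X => H N X / v q L N X with hr
  have hvne : ∀ N X, (v q L N X : ℂ) ≠ 0 := fun N X => by exact_mod_cast (v_pos hq L N X).ne'
  have key2 : ∀ N k, ∀ X ∈ Rset L, ∀ Y ∈ Rset L, ‖r (N + k) X - r N Y‖ ≤ A N := by
    intro N k X hX Y hY
    have h1 := key N k X hX Y hY
    have e : r (N + k) X - r N Y = (H (N + k) X * v q L N Y - H N Y * v q L (N + k) X) /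
        ((v q L (N + k) X : ℂ) * v q L N Y) := by
      simp only [hr]
      rw [div_sub_div _ _ (hvne _ _) (hvne _ _)]
      congr 1
      ring
    rw [e, norm_div, norm_mul, Complex.norm_real, Complex.norm_real,
      Real.norm_of_nonneg (v_pos hq L _ _).le, Real.norm_of_nonneg (v_pos hq L _ _).le,
      div_le_iff₀ (mul_pos (v_pos hq L _ _) (v_pos hq L _ _))]
    exact h1
  have hAlim : Tendsto A atTop (𝓝 0) := by
    have := (tendsto_pow_atTop_nhds_zero_of_lt_one hee hee').const_mul (2 * C)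
    simpa [hA] using this
  have hcau : CauchySeq (fun N => r N (F0, 0)) := by
    apply cauchySeq_of_le_tendsto_0' A _ hAlim
    intro n m hnm
    rw [dist_comm, dist_eq_norm]
    have := key2 n (m - n) _ hX0 _ hX0
    rwa [Nat.add_sub_cancel' hnm] at this
  obtain ⟨l, hl⟩ := cauchySeq_tendsto_of_complete hcau
  refine ⟨l, fun N X hX => ?_⟩
  have h1 : ‖l - r N X‖ ≤ A N := by
    have h2 : Tendsto (fun k => ‖r (N + k) (F0, 0) - r N X‖) atTop (𝓝 ‖l - r N X‖) := by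
      apply Tendsto.norm
      apply Tendsto.sub_const
      have h3 := (tendsto_add_atTop_iff_nat N).mpr hl
      simpa [add_comm] using h3
    exact le_of_tendsto' h2 fun k => key2 N k _ hX0 X hX
  have e : H N X - l * v q L N X = -((l - r N X) * v q L N X) := by
    simp only [hr]
    rw [sub_mul, div_mul_cancel₀ _ (hvne N X)]
    ring
  change ‖H N X - l * v q L N X‖ ≤ _
  rw [e, norm_neg, norm_mul, Complex.norm_real, Real.norm_of_nonneg (v_pos hq L N X).le]
  exact mul_le_mul_of_nonneg_right h1 (v_pos hq L N X).le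

end CQ
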