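import Pool.Agent.Helper9.CC.Comm
import Pool.Agent.Helper9.CC.Doeb

/-! Crossing symmetry and reality of the transfer matrix (module EVEN). -/

namespace CQ
open CC

theorem ev_KL (z : ℂ) (hz : z ≠ 0) (y : M) :
    KL 0 z (R 0 (z ^ 2) 1 y) = (z * ((z + w) * (z + w ^ 2))) • KL 0 z⁻¹ y := by
  have h1 : z * z⁻¹ = 1 := mul_inv_cancel₀ hz
  have hw := w_sq
  have e : (z * ((z + w) * (z + w ^ 2))) • KL 0 z⁻¹ y = ((z + w) * (z + w ^ 2)) •
      (((1 + w) - (2 - w) * z) • y + (z - 1) • E 0 y) := by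
    rw [KL_apply]
    match_scalars
    · linear_combination ((z + w) * (z + w ^ 2)) * (1 + w) * h1
    · linear_combination (-((z + w) * (z + w ^ 2))) * h1
  rw [e, KL_apply, R_apply]
  simp only [map_add, map_smul, E_E]
  match_scalars
  · grind
  · grind

theorem ev_KR (L : ℕ) (z : ℂ) (hz : z ≠ 0) (x : M) :
    R L (z ^ 2) 1 (KR L z⁻¹ x) = (z⁻¹ * ((z + w) * (z + w ^ 2))) • KR L z x := by
  have h1 : z * z⁻¹ = 1 := mul_inv_cancel₀ hz
  have hw := w_sq
  have e : R L (z ^ 2) 1 (KR L z⁻¹ x) = z⁻¹ • R L (z ^ 2) 1 (((1 + w) * z - (2 - w)) • x + (1 - z) • E L x) := by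
    rw [← map_smul]
    congr 1
    rw [KR_apply]
    match_scalars
    · linear_combination (-(1 + w)) * h1
    · linear_combination h1
  rw [e, mul_smul, KR_apply, R_apply]
  congr 1
  simp only [map_add, map_smul, E_E]
  match_scalars
  · grind
  · grind

theorem ev_row1 (o : ℕ) (z : ℂ) (hz : z ≠ 0) (k : ℕ) (x : M) :
    row o w z⁻¹ k x = z⁻¹ ^ k • row o (w * z) 1 k x := by
  have h1 : z * z⁻¹ = 1 := mul_inv_cancel₀ hz
  induction k generalizing x with
  | zero => simp [row_zero]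
  | succ k ih =>
    have e : R (o + k) w z⁻¹ x = z⁻¹ • R (o + k) (w * z) 1 x := by
      rw [← R_smul_arg, mul_one, show z⁻¹ * (w * z) = w * (z * z⁻¹) by ring, h1, mul_one]
    rw [row_succ, row_succ, ih, e, map_smul, smul_smul, pow_succ]

theorem ev_row2 (o : ℕ) (z : ℂ) (hz : z ≠ 0) (k : ℕ) (x : M) :
    row o (w * z⁻¹) 1 k x = z⁻¹ ^ k • row o w z k x := by
  have h1 : z * z⁻¹ = 1 := mul_inv_cancel₀ hz
  induction k generalizing x with
  | zero => simp [row_zero]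
  | succ k ih =>
    have e : R (o + k) (w * z⁻¹) 1 x = z⁻¹ • R (o + k) w z x := by
      rw [← R_smul_arg, mul_comm z⁻¹ w, mul_comm z⁻¹ z, h1]
    rw [row_succ, row_succ, ih, e, map_smul, smul_smul, pow_succ]

/-- crossing symmetry.  Proof: `KL 0 z (R 0 (z^2) 1 x) = (z (z+w) (z+w^2)) • KL 0 z⁻¹ x`,
`R L (z^2) 1 (KR L z⁻¹ x) = ((z+w) (z+w^2) / z) • KR L z x`,
`row o w z⁻¹ k = z⁻¹ ^ k • row o (w * z) 1 k`, `row o (w * z⁻¹) 1 k = z⁻¹ ^ k • row o w z k`, and
`row_exchange' 0 L (w * z) 1 w z w (z ^ 2) 1`. -/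
theorem T_even (L : ℕ) (z : ℂ) (hz : z ≠ 0) (hz' : (z + w) * (z + w ^ 2) ≠ 0) (x : M) :
    T L z x = z ^ (2 * L + 2) • T L z⁻¹ x := by
  have hne : z * ((z + w) * (z + w ^ 2)) ≠ 0 := mul_ne_zero hz hz'
  have h0 : T L z⁻¹ x = (z⁻¹ ^ L * z⁻¹ ^ L) • D (KL 0 z⁻¹ (row 1 (w * z) 1 L (row 0 w z L (KR L z⁻¹ x)))) := by
    rw [T_apply, ev_row1 1 z hz, ev_row2 0 z hz]
    simp only [map_smul, smul_smul]
  have h1 : (z * ((z + w) * (z + w ^ 2))) • T L z⁻¹ x =
      (z⁻¹ ^ L * z⁻¹ ^ L * (z⁻¹ * ((z + w) * (z + w ^ 2)))) • T L z x := by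
    rw [h0, smul_comm, ← map_smul D, ← ev_KL z hz,
      row_exchange' 0 L (w * z) 1 w z w (z ^ 2) 1 w_ne_zero (by ring) (by ring),
      show 0 + L = L from Nat.zero_add L, ev_KR L z hz,
      T_apply]
    simp only [map_smul, smul_smul]
  refine smul_right_injective M hne ?_
  change (z * ((z + w) * (z + w ^ 2))) • T L z x = (z * ((z + w) * (z + w ^ 2))) • z ^ (2 * L + 2) • T L z⁻¹ x
  rw [smul_comm (z * ((z + w) * (z + w ^ 2))) (z ^ (2 * L + 2)), h1, smul_smul]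
  congr 1
  have h2 : z * z⁻¹ = 1 := mul_inv_cancel₀ hz
  have h3 : z ^ L * z⁻¹ ^ L = 1 := by rw [← mul_pow, h2, one_pow]
  have h4 : z ^ (2 * L + 2) = z ^ L * z ^ L * z * z := by ring
  rw [h4]
  linear_combination (-(z * ((z + w) * (z + w ^ 2))) * (z ^ L * z⁻¹ ^ L * z * z⁻¹ + z * z⁻¹)) * h3 -
    (z * ((z + w) * (z + w ^ 2))) * h2

theorem nT_eq (L : ℕ) (z : ℂ) : nT L z = nT L 0 * ((1 + z) ^ (2 * L) * (z ^ 2 + z + 1)) := by
  unfold nT
  rw [mul_pow, mul_pow, add_zero, one_pow]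
  have e : (w * z - (1 - w)) * (w - (1 - w) * z) = (w * 0 - (1 - w)) * (w - (1 - w) * 0) * (z ^ 2 + z + 1) := by
    have hw := w_sq
    grind
  rw [e]
  ring

theorem nT_zero_ne (L : ℕ) : nT L 0 ≠ 0 := by
  unfold nT
  have h1 : (1 - w) ≠ 0 := by
    rw [← w_inv]
    exact inv_ne_zero w_ne_zero
  have h2 : w * 0 - (1 - w) ≠ 0 := by
    rw [mul_zero, zero_sub]
    exact neg_ne_zero.2 h1
  have h3 : w - (1 - w) * 0 ≠ 0 := by
    rw [mul_zero, sub_zero]
    exact w_ne_zero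
  have h4 : w ^ 2 * (1 + 0) ≠ 0 := by
    rw [add_zero, mul_one]
    exact pow_ne_zero _ w_ne_zero
  exact mul_ne_zero (mul_ne_zero h2 h3) (pow_ne_zero _ h4)

theorem nT_ne (L : ℕ) (z : ℂ) (h : z ≠ -1) (h' : z ^ 2 + z + 1 ≠ 0) : nT L z ≠ 0 := by
  rw [nT_eq]
  have h1 : 1 + z ≠ 0 := fun h2 => h (by linear_combination h2)
  exact mul_ne_zero (nT_zero_ne L) (mul_ne_zero (pow_ne_zero _ h1) h')

/-- real vectors -/
def IsRe (x : M) : Prop := ∀ X, (x X).im = 0

theorem IsRe.single (X : Q) (c : ℝ) : IsRe (Finsupp.single X (c:ℂ)) := by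
  classical
  intro Y
  rw [Finsupp.single_apply]
  split_ifs
  · exact Complex.ofReal_im c
  · rfl

theorem IsRe.add {x y : M} (hx : IsRe x) (hy : IsRe y) : IsRe (x + y) := by
  intro X
  rw [Finsupp.add_apply, Complex.add_im, hx X, hy X, add_zero]

theorem IsRe.smul {c : ℂ} (hc : c.im = 0) {x : M} (hx : IsRe x) : IsRe (c • x) := by
  intro X
  rw [Finsupp.smul_apply, smul_eq_mul, Complex.mul_im, hx X, hc, mul_zero, zero_mul, add_zero]

theorem IsRe.map (f : Q → Q) {x : M} (hx : IsRe x) : IsRe (Finsupp.lmapDomain ℂ ℂ f x) := by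
  classical
  intro Y
  rw [Finsupp.lmapDomain_apply, Finsupp.mapDomain, Finsupp.sum_apply, Finsupp.sum, Complex.im_sum]
  refine Finset.sum_eq_zero fun X _ => ?_
  rw [Finsupp.single_apply]
  split_ifs
  · exact hx X
  · rfl

/-- `A` is real up to the factor `c` -/
def ReOp (c : ℂ) (A : M →ₗ[ℂ] M) : Prop := ∀ x, IsRe x → IsRe (c⁻¹ • A x)

theorem ReOp.comp {c d : ℂ} {A B : M →ₗ[ℂ] M} (hA : ReOp c A) (hB : ReOp d B) : ReOp (c * d) (A ∘ₗ B) := by
  intro x hx
  have h := hA _ (hB x hx)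
  rw [map_smul, smul_smul, ← mul_inv] at h
  exact h

/-- a combination of the identity and `E i` with real ratios -/
theorem ReOp.lin (i : ℕ) {a b c : ℂ} (ha : (c⁻¹ * a).im = 0) (hb : (c⁻¹ * b).im = 0) :
    ReOp c (a • LinearMap.id + b • E i) := by
  intro x hx
  have e : c⁻¹ • (a • LinearMap.id + b • E i : M →ₗ[ℂ] M) x = (c⁻¹ * a) • x + (c⁻¹ * b) • E i x := by
    simp only [LinearMap.add_apply, LinearMap.smul_apply, LinearMap.id_apply, smul_add, smul_smul]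
  rw [e]
  exact (hx.smul ha).add ((hx.map _).smul hb)

theorem ev_conj_w : (starRingEnd ℂ) w = 1 - w := by
  unfold w
  apply Complex.ext
  · simp only [Complex.conj_re, Complex.sub_re, Complex.one_re]
    norm_num
  · simp only [Complex.conj_im, Complex.sub_im, Complex.one_im]
    ring

theorem ev_conj_z {z : ℂ} (hz : ‖z‖ = 1) : (starRingEnd ℂ) z = z⁻¹ := by
  rw [Complex.inv_def, Complex.normSq_eq_norm_sq, hz]
  simp

theorem ev_im {u : ℂ} (h : (starRingEnd ℂ) u = u) : u.im = 0 := Complex.conj_eq_iff_im.1 h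

theorem ReOp.KL (z : ℂ) (hz : ‖z‖ = 1) (h : w * z - (1 - w) ≠ 0) (j : ℕ) : ReOp (w * z - (1 - w)) (CC.KL j z) := by
  have hz0 : z ≠ 0 := fun h0 => by rw [h0, norm_zero] at hz; exact zero_ne_one hz
  have hw := w_sq
  have hcz := ev_conj_z hz
  have hcw := ev_conj_w
  have hb : ((w * z - (1 - w))⁻¹ * (1 - z)).im = 0 := by
    apply ev_im
    rw [map_mul, map_inv₀, map_sub, map_sub, map_sub, map_mul, map_one, hcz, hcw]
    have h2 : (1 - w) * z⁻¹ - (1 - (1 - w)) ≠ 0 := by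
      intro h0
      apply h
      have : z * ((1 - w) * z⁻¹ - (1 - (1 - w))) = 0 := by rw [h0, mul_zero]
      have e : z * z⁻¹ = 1 := mul_inv_cancel₀ hz0
      linear_combination (-1) * this + (1 - w) * e
    rw [inv_mul_eq_div, inv_mul_eq_div, div_eq_div_iff h2 h]
    have e : z * z⁻¹ = 1 := mul_inv_cancel₀ hz0
    linear_combination (1 - 2 * w) * e
  have ha : ((w * z - (1 - w))⁻¹ * ((1 + w) * z - (2 - w))).im = 0 := by
    have e : (w * z - (1 - w))⁻¹ * ((1 + w) * z - (2 - w)) = 1 - (w * z - (1 - w))⁻¹ * (1 - z) := by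
      have : (w * z - (1 - w))⁻¹ * (w * z - (1 - w)) = 1 := inv_mul_cancel₀ h
      linear_combination this
    rw [e, Complex.sub_im, hb]
    simp
  exact ReOp.lin j ha hb

theorem ReOp.KR (z : ℂ) (hz : ‖z‖ = 1) (h : w - (1 - w) * z ≠ 0) (j : ℕ) : ReOp (w - (1 - w) * z) (CC.KR j z) := by
  have hz0 : z ≠ 0 := fun h0 => by rw [h0, norm_zero] at hz; exact zero_ne_one hz
  have hw := w_sq
  have hcz := ev_conj_z hz
  have hcw := ev_conj_w
  have hb : ((w - (1 - w) * z)⁻¹ * (z - 1)).im = 0 := by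
    apply ev_im
    rw [map_mul, map_inv₀, map_sub, map_sub, map_mul, map_sub, map_one, hcz, hcw]
    have h2 : 1 - w - (1 - (1 - w)) * z⁻¹ ≠ 0 := by
      intro h0
      apply h
      have : z * (1 - w - (1 - (1 - w)) * z⁻¹) = 0 := by rw [h0, mul_zero]
      have e : z * z⁻¹ = 1 := mul_inv_cancel₀ hz0
      linear_combination (-1) * this - w * e
    rw [inv_mul_eq_div, inv_mul_eq_div, div_eq_div_iff h2 h]
    have e : z * z⁻¹ = 1 := mul_inv_cancel₀ hz0
    linear_combination (2 * w - 1) * e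
  have ha : ((w - (1 - w) * z)⁻¹ * ((1 + w) - (2 - w) * z)).im = 0 := by
    have e : (w - (1 - w) * z)⁻¹ * ((1 + w) - (2 - w) * z) = 1 - (w - (1 - w) * z)⁻¹ * (z - 1) := by
      have : (w - (1 - w) * z)⁻¹ * (w - (1 - w) * z) = 1 := inv_mul_cancel₀ h
      linear_combination this
    rw [e, Complex.sub_im, hb]
    simp
  exact ReOp.lin j ha hb

theorem ReOp.R {p q : ℂ} (hp : ‖p‖ = 1) (hq : ‖q‖ = 1) (h : w * p - (1 - w) * q ≠ 0) (j : ℕ) :
    ReOp (w * p - (1 - w) * q) (CC.R j p q) := by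
  have hp0 : p ≠ 0 := fun h0 => by rw [h0, norm_zero] at hp; exact zero_ne_one hp
  have hq0 : q ≠ 0 := fun h0 => by rw [h0, norm_zero] at hq; exact zero_ne_one hq
  have hw := w_sq
  have hcp := ev_conj_z hp
  have hcq := ev_conj_z hq
  have hcw := ev_conj_w
  have e1 : p * p⁻¹ = 1 := mul_inv_cancel₀ hp0
  have e2 : q * q⁻¹ = 1 := mul_inv_cancel₀ hq0
  have hb : ((w * p - (1 - w) * q)⁻¹ * (p - q)).im = 0 := by
    apply ev_im
    rw [map_mul, map_inv₀, map_sub, map_mul, map_mul, map_sub, map_sub, map_one, hcp, hcq, hcw]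
    have h2 : (1 - w) * p⁻¹ - (1 - (1 - w)) * q⁻¹ ≠ 0 := by
      intro h0
      apply h
      have : (p * q) * ((1 - w) * p⁻¹ - (1 - (1 - w)) * q⁻¹) = 0 := by rw [h0, mul_zero]
      linear_combination (-1) * this + (1 - w) * q * e1 - w * p * e2
    rw [inv_mul_eq_div, inv_mul_eq_div, div_eq_div_iff h2 h]
    linear_combination ((2 * w - 1)) * e1 + (-(2 * w - 1)) * e2
  have ha : ((w * p - (1 - w) * q)⁻¹ * (w * q - (1 - w) * p)).im = 0 := by
    have e : (w * p - (1 - w) * q)⁻¹ * (w * q - (1 - w) * p) = 1 - (w * p - (1 - w) * q)⁻¹ * (p - q) := by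
      have : (w * p - (1 - w) * q)⁻¹ * (w * p - (1 - w) * q) = 1 := inv_mul_cancel₀ h
      linear_combination this
    rw [e, Complex.sub_im, hb]
    simp
  exact ReOp.lin j ha hb

theorem ReOp.id : ReOp 1 LinearMap.id := by
  intro x hx
  rw [inv_one, one_smul]
  exact hx

theorem ReOp.row {p q : ℂ} (hp : ‖p‖ = 1) (hq : ‖q‖ = 1) (h : w * p - (1 - w) * q ≠ 0) (o k : ℕ) :
    ReOp ((w * p - (1 - w) * q) ^ k) (CC.row o p q k) := by
  induction k with
  | zero => exact ReOp.id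
  | succ k ih =>
    rw [pow_succ]
    exact ih.comp (ReOp.R hp hq h _)

theorem ReOp.D : ReOp 1 CC.D := by
  intro x hx
  rw [inv_one, one_smul]
  exact hx.map _

theorem ev_norm_w : ‖w‖ = 1 := by
  have h : ‖w‖ ^ 3 = 1 := by
    rw [← norm_pow, w_cube, norm_neg, norm_one]
  exact (pow_eq_one_iff_of_nonneg (norm_nonneg _) (by norm_num)).1 h

/-- for `‖z‖ = 1` each factor of the transfer matrix is a real combination, up to its total mass -/
theorem T_re (L : ℕ) (z : ℂ) (hz : ‖z‖ = 1) (hn : nT L z ≠ 0) {x : M} (hx : IsRe x) :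
    IsRe ((nT L z)⁻¹ • T L z x) := by
  have hn' := hn
  have e1 : w * w - (1 - w) * z = w ^ 2 * (1 + z) := by linear_combination (-z) * w_sq
  have e2 : w * (w * z) - (1 - w) * 1 = w ^ 2 * (1 + z) := by linear_combination (-1) * w_sq
  rcases Nat.eq_zero_or_pos L with rfl | hL
  · have e : nT 0 z = 1 * ((w * z - (1 - w)) * (w - (1 - w) * z)) := by
      unfold nT
      rw [mul_zero, pow_zero]
      ring
    rw [e] at hn ⊢
    have h1 : w * z - (1 - w) ≠ 0 := fun h => hn (by rw [h]; ring)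
    have h2 : w - (1 - w) * z ≠ 0 := fun h => hn (by rw [h]; ring)
    exact (ReOp.D.comp ((ReOp.KL z hz h1 0).comp (ReOp.KR z hz h2 0))) x hx
  · have e : nT L z = 1 * ((w * z - (1 - w)) * ((w * w - (1 - w) * z) ^ L * ((w * (w * z) - (1 - w) * 1) ^ L *
        (w - (1 - w) * z)))) := by
      unfold nT
      rw [e1, e2, two_mul, pow_add]
      ring
    rw [e] at hn ⊢
    have h1 : w * z - (1 - w) ≠ 0 := fun h => hn (by rw [h]; ring)
    have h2 : w - (1 - w) * z ≠ 0 := fun h => hn (by rw [h]; ring)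
    have h3 : w * w - (1 - w) * z ≠ 0 := fun h => hn (by rw [h, zero_pow hL.ne']; ring)
    have h4 : w * (w * z) - (1 - w) * 1 ≠ 0 := fun h => hn (by rw [h, zero_pow hL.ne']; ring)
    have hwz : ‖w * z‖ = 1 := by rw [norm_mul, ev_norm_w, hz, one_mul]
    exact (ReOp.D.comp ((ReOp.KL z hz h1 0).comp ((ReOp.row ev_norm_w hz h3 1 L).comp
      ((ReOp.row hwz norm_one h4 0 L).comp (ReOp.KR z hz h2 L))))) x hx

theorem itg_re {g : Q → ℂ} (hg : ∀ X, (g X).im = 0) {x : M} (hx : IsRe x) : (itg g x).im = 0 := by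
  unfold itg
  rw [Finsupp.lsum_apply, Finsupp.sum, Complex.im_sum]
  refine Finset.sum_eq_zero fun X _ => ?_
  rw [LinearMap.smul_apply, LinearMap.id_apply, smul_eq_mul, Complex.mul_im, hg X, hx X, mul_zero, zero_mul, add_zero]

end CQ
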