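import Pool.Agent.Helper9.CQ.Contr
import Pool.Agent.Helper9.CC.DictC

/-! Percolation: the exponential moments of the number of the crossing clusters (module PROB). -/

namespace CQ
open CC Finset Filter Topology

/-- `E q ^ N(L,H)`, `N(L,H)` the number of the crossing clusters of the rectangle -/
noncomputable def EQ (q : ℝ) (L H : ℕ) : ℝ :=
  ∑ ω ∈ (edg (regF L 0 H)).powerset, q ^ (crossing L H ω).ncard * (1 / 2) ^ #(edg (regF L 0 H))

/-- `E q ^ counter` under the law of the front -/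
theorem tq_law (q : ℝ) (L : ℤ) (WL : Finset V) (F : Finset (Sym2 V)) (f : ℕ → V) :
    tq q (law L WL F f) =
      ((∑ ω ∈ F.powerset, q ^ (fin L WL f ω).ncard * (1 / 2) ^ #F : ℝ) : ℂ) := by
  unfold law tq
  rw [map_sum]
  push_cast
  refine sum_congr rfl fun ω _ => ?_
  rw [itg_single]
  unfold stQ
  simp

theorem pow_cmp {q : ℝ} (hq : 0 < q) {a b K : ℕ} (h1 : a ≤ b + K) (h2 : b ≤ a + K) :
    q ^ a ≤ (max q q⁻¹) ^ K * q ^ b := by
  have hqi : 0 < q⁻¹ := inv_pos.2 hq
  rcases le_total 1 q with h | h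
  · calc q ^ a ≤ q ^ (K + b) := pow_le_pow_right₀ h (by omega)
      _ = q ^ K * q ^ b := pow_add _ _ _
      _ ≤ (max q q⁻¹) ^ K * q ^ b := mul_le_mul_of_nonneg_right
          (pow_le_pow_left₀ hq.le (le_max_left _ _) _) (by positivity)
  · calc q ^ a = (q⁻¹) ^ K * q ^ (a + K) := by
          rw [pow_add, inv_pow]
          field_simp
      _ ≤ (q⁻¹) ^ K * q ^ b := mul_le_mul_of_nonneg_left
          (pow_le_pow_of_le_one hq.le h h2) (by positivity)
      _ ≤ (max q q⁻¹) ^ K * q ^ b := mul_le_mul_of_nonneg_right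
          (pow_le_pow_left₀ hqi.le (le_max_right _ _) _) (by positivity)

theorem edg_mono (L : ℕ) {a b a' b' : ℤ} (h3 : a' ≤ a) (h4 : b ≤ b') :
    edg (regF L a b) ⊆ edg (regF L a' b') := by
  intro e he
  induction e using Sym2.ind with
  | _ u v =>
    rw [dB_mem_edg, dB_mem_regF, dB_mem_regF] at he ⊢
    exact ⟨by omega, by omega, he.2.2⟩

/-- the number of the crossing clusters and the counter differ by at most `5 L + 4` -/
theorem pw (L : ℕ) (hL : 1 ≤ L) (N H : ℕ) (h1 : 2 * N ≤ H) (h2 : H ≤ 2 * N + 1)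
    {ω : Finset (Sym2 V)} (hω : ω ⊆ edg (regF L 0 (2 * N + 1))) :
    (crossing L H (ω ∩ edg (regF L 0 H))).ncard ≤
      (fin L (lw N) (fr L N) (ω ∩ edg (regF L 1 (2 * N + 1)))).ncard + (5 * L + 4) ∧
    (fin L (lw N) (fr L N) (ω ∩ edg (regF L 1 (2 * N + 1)))).ncard ≤
      (crossing L H (ω ∩ edg (regF L 0 H))).ncard + (5 * L + 4) := by
  set G : Finset (Sym2 V) := edg (regF L 0 (2 * N + 1)) with hG
  set F1 : Finset (Sym2 V) := edg (regF L 0 H) with hF1
  set F2 : Finset (Sym2 V) := edg (regF L 1 (2 * N + 1)) with hF2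
  have i1 : ω ∩ F1 ⊆ edg (regF L 0 H) := inter_subset_right
  have i2 : ω ∩ F2 ⊆ edg (regF L 1 (2 * N + 1)) := inter_subset_right
  rw [dC_crossing hL i1]
  have j1 := dC_fin hL i2
  have j2 := dC_X_change (L := L) hL (ω := ω ∩ F1) (ω' := ω) (S := regF L 0 (2 * N + 1))
    (P := regF L (2 * N) (2 * N + 1)) hω inter_subset_left (by
      intro x y hxy
      have h3 := hω hxy
      rw [hG, dB_mem_edg, dB_mem_regF, dB_mem_regF] at h3
      by_cases h4 : x.1 - x.2 ≤ H ∧ y.1 - y.2 ≤ H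
      · left
        rw [mem_inter]
        refine ⟨hxy, ?_⟩
        rw [hF1, dB_mem_edg, dB_mem_regF, dB_mem_regF]
        exact ⟨by omega, by omega, h3.2.2⟩
      · right
        rw [dB_mem_regF, dB_mem_regF]
        obtain ⟨x1, x2⟩ := x
        rcases dB_adj h3.2.2 with hv | hv | hv | hv <;>
        · rw [hv] at h3 h4 ⊢
          simp only at h3 h4 ⊢
          omega)
  have j3 := dC_X_change (L := L) hL (ω := ω ∩ F2) (ω' := ω) (S := regF L 0 (2 * N + 1))
    (P := regF L 0 (0 + 1)) hω inter_subset_left (by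
      intro x y hxy
      have h3 := hω hxy
      rw [hG, dB_mem_edg, dB_mem_regF, dB_mem_regF] at h3
      by_cases h4 : 1 ≤ x.1 - x.2 ∧ 1 ≤ y.1 - y.2
      · left
        rw [mem_inter]
        refine ⟨hxy, ?_⟩
        rw [hF2, dB_mem_edg, dB_mem_regF, dB_mem_regF]
        exact ⟨by omega, by omega, h3.2.2⟩
      · right
        rw [dB_mem_regF, dB_mem_regF]
        obtain ⟨x1, x2⟩ := x
        rcases dB_adj h3.2.2 with hv | hv | hv | hv <;>
        · rw [hv] at h3 h4 ⊢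
          simp only at h3 h4 ⊢
          omega)
  have k1 := dC_card_reg L (2 * N)
  have k2 := dC_card_reg L 0
  constructor <;> omega

theorem v_law (L : ℕ) (hL : 1 ≤ L) (q : ℝ) (N : ℕ) :
    v q L N (stQ L ∅ (fr L 0) ∅) = ∑ ω ∈ (edg (regF L 1 (2 * N + 1))).powerset,
      q ^ (fin L (lw N) (fr L N) ω).ncard * (1 / 2) ^ #(edg (regF L 1 (2 * N + 1))) := by
  unfold v
  rw [← law_strip L hL N, tq_law, Complex.ofReal_re]

/-- comparison with the counter, as in `CC.EN_cn` (pointwise the numbers differ by at most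
`5 L + 4`) -/
theorem EQ_v (L : ℕ) (hL : 1 ≤ L) {q : ℝ} (hq : 0 < q) : ∃ C : ℝ, 0 < C ∧ ∀ N : ℕ, ∀ H : ℕ,
    2 * N ≤ H → H ≤ 2 * N + 1 →
    EQ q L H ≤ C * v q L N (stQ L ∅ (fr L 0) ∅) ∧ v q L N (stQ L ∅ (fr L 0) ∅) ≤ C * EQ q L H := by
  refine ⟨(max q q⁻¹) ^ (5 * L + 4), pow_pos (lt_max_of_lt_left hq) _, fun N H h1 h2 => ?_⟩
  rw [v_law L hL]
  unfold EQ
  set G : Finset (Sym2 V) := edg (regF L 0 (2 * N + 1)) with hG
  have s1 : edg (regF L 0 H) ⊆ G := edg_mono L le_rfl (by omega)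
  have s2 : edg (regF L 1 (2 * N + 1)) ⊆ G := edg_mono L (by omega) le_rfl
  rw [dC_expect (fun ω => q ^ (crossing L H ω).ncard) s1,
    dC_expect (fun ω => q ^ (fin L (lw N) (fr L N) ω).ncard) s2, mul_sum, mul_sum]
  constructor
  · refine sum_le_sum fun ω hω => ?_
    obtain ⟨k1, k2⟩ := pw L hL N H h1 h2 (mem_powerset.1 hω)
    rw [← mul_assoc]
    exact mul_le_mul_of_nonneg_right (pow_cmp hq k1 k2) (by positivity)
  · refine sum_le_sum fun ω hω => ?_
    obtain ⟨k1, k2⟩ := pw L hL N H h1 h2 (mem_powerset.1 hω)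
    rw [← mul_assoc]
    exact mul_le_mul_of_nonneg_right (pow_cmp hq k2 k1) (by positivity)

theorem EQ_pos (L H : ℕ) {q : ℝ} (hq : 0 < q) : 0 < EQ q L H := by
  unfold EQ
  exact sum_pos (fun ω _ => by positivity) ⟨∅, empty_mem_powerset _⟩

/-- if the ratios `v (N+1) / v N` converge -/
theorem log_EQ (L : ℕ) (hL : 1 ≤ L) {q : ℝ} (hq : 0 < q) (l : ℝ) (hl : 0 < l)
    (h : Tendsto (fun N => v q L (N + 1) (stQ L ∅ (fr L 0) ∅) / v q L N (stQ L ∅ (fr L 0) ∅)) atTop
      (𝓝 l)) :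
    Tendsto (fun H : ℕ => Real.log (EQ q L H) / H) atTop (𝓝 (1 / 2 * Real.log l)) := by
  obtain ⟨C, hC0, hC⟩ := EQ_v L hL hq
  set X := stQ L ∅ (fr L 0) ∅ with hX
  set u : ℕ → ℝ := fun N => Real.log (v q L N X) with hu
  have hpos : ∀ N, 0 < v q L N X := fun N => v_pos hq L N X
  have h1 : Tendsto (fun N => u (N + 1) - u N) atTop (𝓝 (Real.log l)) := by
    refine ((Real.continuousAt_log hl.ne').tendsto.comp h).congr fun N => ?_
    rw [Function.comp_apply, Real.log_div (hpos _).ne' (hpos _).ne']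
  have h2 : Tendsto (fun N : ℕ => ((N : ℝ)⁻¹) • ∑ i ∈ range N, (u (i + 1) - u i)) atTop
      (𝓝 (Real.log l)) := h1.cesaro_smul
  have h3 : Tendsto (fun N : ℕ => (N : ℝ)⁻¹ * u N) atTop (𝓝 (Real.log l)) := by
    have h4 : Tendsto (fun N : ℕ => (N : ℝ)⁻¹ * u 0) atTop (𝓝 0) := by
      have := (tendsto_inv_atTop_nhds_zero_nat (𝕜 := ℝ)).mul_const (u 0)
      rwa [zero_mul] at this
    have h5 := h2.add h4
    rw [add_zero] at h5
    refine h5.congr fun N => ?_
    rw [sum_range_sub, smul_eq_mul]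
    ring
  have hf : Tendsto (fun H : ℕ => H / 2) atTop atTop :=
    Filter.tendsto_atTop_atTop.2 fun b => ⟨2 * b, fun a ha => by omega⟩
  have h4 := h3.comp hf
  have h5 : Tendsto (fun H : ℕ => ((H / 2 : ℕ) : ℝ) / H) atTop (𝓝 (1 / 2)) := by
    have h3 : Tendsto (fun H : ℕ => (1:ℝ) / 2 - (H:ℝ)⁻¹) atTop (𝓝 (1 / 2)) := by
      have := (tendsto_inv_atTop_nhds_zero_nat (𝕜 := ℝ)).const_sub (1 / 2)
      rwa [sub_zero] at this
    refine tendsto_of_tendsto_of_tendsto_of_le_of_le' h3 tendsto_const_nhds ?_ ?_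
    · filter_upwards [eventually_ge_atTop 1] with H hH
      have hH' : (0:ℝ) < H := by exact_mod_cast hH
      rw [le_div_iff₀ hH', sub_mul, inv_mul_cancel₀ hH'.ne']
      have : H ≤ 2 * (H / 2) + 1 := by omega
      have : (H:ℝ) ≤ 2 * ((H / 2 : ℕ) : ℝ) + 1 := by exact_mod_cast this
      linarith
    · filter_upwards [eventually_ge_atTop 1] with H hH
      have hH' : (0:ℝ) < H := by exact_mod_cast hH
      rw [div_le_iff₀ hH']
      have : 2 * (H / 2) ≤ H := by omega
      have : 2 * ((H / 2 : ℕ) : ℝ) ≤ (H:ℝ) := by exact_mod_cast this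
      linarith
  have h6 : Tendsto (fun H : ℕ => u (H / 2) / H) atTop (𝓝 (1 / 2 * Real.log l)) := by
    refine (h5.mul h4).congr' ?_
    filter_upwards [eventually_ge_atTop 2] with H hH
    have hH1 : ((H / 2 : ℕ) : ℝ) ≠ 0 := by
      have : 0 < H / 2 := by omega
      exact_mod_cast this.ne'
    rw [Function.comp_apply]
    field_simp
  have h7 : Tendsto (fun H : ℕ => (Real.log (EQ q L H) - u (H / 2)) / H) atTop (𝓝 0) := by
    have h8 : Tendsto (fun H : ℕ => |Real.log C| * (H:ℝ)⁻¹) atTop (𝓝 0) := by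
      have := (tendsto_inv_atTop_nhds_zero_nat (𝕜 := ℝ)).const_mul (|Real.log C|)
      rwa [mul_zero] at this
    refine squeeze_zero_norm (fun H => ?_) h8
    rw [norm_div, Real.norm_natCast, Real.norm_eq_abs, div_eq_mul_inv]
    refine mul_le_mul_of_nonneg_right ?_ (by positivity)
    obtain ⟨h9, h10⟩ := hC (H / 2) H (by omega) (by omega)
    have h11 := EQ_pos L H hq
    have h12 := Real.log_le_log h11 h9
    have h13 := Real.log_le_log (hpos _) h10
    rw [Real.log_mul hC0.ne' (hpos _).ne'] at h12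
    rw [Real.log_mul hC0.ne' h11.ne'] at h13
    have h14 := le_abs_self (Real.log C)
    rw [abs_le]
    constructor
    · simp only [hu]; linarith
    · simp only [hu]; linarith
  have h8 := h7.add h6
  rw [zero_add] at h8
  refine h8.congr fun H => ?_
  rw [← add_div, sub_add_cancel]

end CQ
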