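import Pool.Agent.Helper9.CQ.LamC
import Pool.Agent.Helper9.CQ.Prob

/-! The lattice half of (E+) (module CQ FINAL). -/

namespace CQ
open CC Filter Topology Polynomial

theorem ee_rate {q : ℝ} (hq : 0 < q) (L : ℕ) : Tendsto (fun N : ℕ => (1 - ee q L) ^ N) atTop (𝓝 0) :=
  tendsto_pow_atTop_nhds_zero_of_lt_one (by linarith [ee_le hq L]) (by linarith [ee_pos hq L])

theorem v_ratio (L : ℕ) {q : ℝ} (hq : 0 < q) {X : Q} (hX : X ∈ Rset L) :
    Tendsto (fun N => v q L (N + 1) X / v q L N X) atTop (𝓝 ((lamE L q 1 / nT L 1).re)) := by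
  obtain ⟨C, hC, m, h⟩ := lamE_spec L 1
  have h1 : Tendsto (fun N => ((v q L (N + 1) X / v q L N X : ℝ) : ℂ)) atTop
      (𝓝 (lamE L q 1 / nT L 1)) := by
    rw [tendsto_iff_norm_sub_tendsto_zero]
    have h2 : Tendsto (fun N : ℕ => ‖(nT L 1)⁻¹‖ * (C * (max q q⁻¹) ^ m) * (1 - ee q L) ^ N) atTop (𝓝 0) := by
      have := (ee_rate hq L).const_mul (‖(nT L 1)⁻¹‖ * (C * (max q q⁻¹) ^ m))
      rwa [mul_zero] at this
    refine squeeze_zero (fun N => norm_nonneg _) (fun N => ?_) h2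
    have hv := v_pos hq L N X
    have h3 := h q hq N X hX
    have h4 : (v q L (N + 1) X : ℂ) = (nT L 1)⁻¹ * tq q (T L 1 (((Ts L) ^ N) (Finsupp.single X 1))) := by
      rw [← v_eq, pow_succ', Module.End.mul_apply, Ts_apply', map_smul, smul_eq_mul]
    have hv' : (v q L N X : ℂ) ≠ 0 := by exact_mod_cast hv.ne'
    have h5 : ((v q L (N + 1) X / v q L N X : ℝ) : ℂ) - lamE L q 1 / nT L 1 =
        (nT L 1)⁻¹ * (tq q (T L 1 (((Ts L) ^ N) (Finsupp.single X 1))) - lamE L q 1 * v q L N X) /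
          v q L N X := by
      push_cast
      rw [h4]
      field_simp
    rw [h5, norm_div, norm_mul, Complex.norm_real, Real.norm_eq_abs, abs_of_pos hv, div_le_iff₀ hv]
    calc _ ≤ ‖(nT L 1)⁻¹‖ * (C * (max q q⁻¹) ^ m * (1 - ee q L) ^ N * v q L N X) :=
          mul_le_mul_of_nonneg_left h3 (norm_nonneg _)
      _ = _ := by ring
  have h2 := (Complex.continuous_re.tendsto _).comp h1
  exact h2

theorem max_one_le (q : ℝ) (hq : 0 < q) : 1 ≤ max q q⁻¹ := by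
  rcases le_total 1 q with h | h
  · exact le_max_of_le_left h
  · exact le_max_of_le_right ((one_le_inv₀ hq).2 h)

theorem v_succ_ge (L N : ℕ) {q : ℝ} (hq : 0 < q) {X : Q} (hX : X ∈ Rset L) :
    (4 ^ L * (max q q⁻¹) ^ (3 * L + 2))⁻¹ * v q L N X ≤ v q L (N + 1) X := by
  obtain ⟨φ, h1, h2, h3, h4, h5, a, h6⟩ := words L
  have hv : ∀ X, (v q L (N + 1) X : ℂ) = (4 ^ L : ℂ)⁻¹ * ∑ a, (v q L N (φ a X) : ℂ) := by
    intro X
    rw [← v_eq]
    unfold tq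
    rw [pow_step, h1, itg_single, mul_one]
    simp only [← v_eq]
    rfl
  have hv' : v q L (N + 1) X = (4 ^ L : ℝ)⁻¹ * ∑ a, v q L N (φ a X) := by
    have := hv X
    rw [← Complex.ofReal_sum, show (4 ^ L : ℂ)⁻¹ = (((4 ^ L : ℝ)⁻¹ : ℝ) : ℂ) by push_cast; rfl,
      ← Complex.ofReal_mul] at this
    exact Complex.ofReal_injective this
  have hK := max_one_le q hq
  have h7 := v_cmp hq L N hX (h4 a X hX)
  have h8 : q ^ (X.2 - (φ a X).2) ≤ (max q q⁻¹) ^ (2 * L + 1) := by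
    obtain ⟨h9, h10⟩ := h5 a X
    obtain ⟨k, hk⟩ : ∃ k : ℕ, (φ a X).2 = X.2 + k := ⟨((φ a X).2 - X.2).toNat, by omega⟩
    have hk' : k ≤ 2 * L + 1 := by omega
    rw [hk, show X.2 - (X.2 + (k:ℤ)) = -(k:ℤ) by ring, zpow_neg, zpow_natCast, ← inv_pow]
    exact (pow_le_pow_left₀ (inv_pos.2 hq).le (le_max_right _ _) k).trans (pow_le_pow_right₀ hK hk')
  have h9 : v q L N X ≤ (max q q⁻¹) ^ (3 * L + 2) * v q L N (φ a X) := by
    refine h7.trans ?_
    have hp := v_pos hq L N (φ a X)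
    calc (max q q⁻¹) ^ (L + 1) * q ^ (X.2 - (φ a X).2) * v q L N (φ a X)
        ≤ (max q q⁻¹) ^ (L + 1) * (max q q⁻¹) ^ (2 * L + 1) * v q L N (φ a X) := by gcongr
      _ = _ := by rw [← pow_add]; congr 2; ring
  have h10 : v q L N (φ a X) ≤ ∑ a, v q L N (φ a X) :=
    Finset.single_le_sum (f := fun a => v q L N (φ a X)) (fun a _ => (v_pos hq L N _).le)
      (Finset.mem_univ a)
  have hK0 : 0 < (max q q⁻¹) ^ (3 * L + 2) := by positivity
  rw [hv', mul_inv, mul_assoc]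
  refine mul_le_mul_of_nonneg_left ?_ (by positivity)
  rw [inv_mul_le_iff₀ hK0]
  exact h9.trans (mul_le_mul_of_nonneg_left h10 hK0.le)

theorem lamE_one_pos (L : ℕ) {q : ℝ} (hq : 0 < q) : 0 < (lamE L q 1 / nT L 1).re := by
  have h := v_ratio L hq (F0_mem L 0)
  have h1 : (4 ^ L * (max q q⁻¹) ^ (3 * L + 2))⁻¹ ≤ (lamE L q 1 / nT L 1).re := by
    refine ge_of_tendsto' h fun N => ?_
    rw [le_div_iff₀ (v_pos hq L N _)]
    exact v_succ_ge L N hq (F0_mem L 0)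
  have h2 : 0 < (4 ^ L * (max q q⁻¹) ^ (3 * L + 2) : ℝ)⁻¹ := by
    have := max_one_le q hq
    positivity
  exact lt_of_lt_of_le h2 h1

theorem fam (L : ℕ) (hL : 1 ≤ L) : ∃ lam : ℝ → ℝ[X], EP.Fam L lam ∧
    ∀ q : ℝ, 0 < q → 0 < (lam q).eval 1 ∧ Tendsto (fun H : ℕ => Real.log (EQ q L H) / H) atTop
      (𝓝 (1 / 2 * Real.log ((lam q).eval 1 / (EP.nu L).eval 1))) := by
  obtain ⟨lam, h1, h2⟩ := fam0 L
  refine ⟨lam, h1, fun q hq => ?_⟩
  have hnu1 : 0 < (EP.nu L).eval 1 := by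
    simp [EP.nu]
    positivity
  have e : lamE L q 1 / nT L 1 = (((lam q).eval 1 / (EP.nu L).eval 1 : ℝ) : ℂ) := by
    have a1 : aeval (1:ℂ) (lam q) = (((lam q).eval 1 : ℝ) : ℂ) := by
      have := aeval_algebraMap_apply ℂ (1:ℝ) (lam q)
      rw [map_one] at this
      rw [this]; rfl
    have a2 : nT L 1 = nT L 0 * (((EP.nu L).eval 1 : ℝ) : ℂ) := by
      have := aeval_algebraMap_apply ℂ (1:ℝ) (EP.nu L)
      rw [map_one] at this
      rw [nT_eq, ← aeval_nu, this]; rfl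
    rw [h2 q hq, a1, a2, mul_div_mul_left _ _ (nT_zero_ne L)]
    push_cast
    rfl
  have h3 := lamE_one_pos L hq
  have h4 := v_ratio L hq (init_mem L hL)
  rw [e, Complex.ofReal_re] at h3 h4
  refine ⟨?_, log_EQ L hL hq _ h3 h4⟩
  by_contra h5
  rw [not_lt] at h5
  exact absurd h3 (not_lt.2 (div_nonpos_of_nonpos_of_nonneg h5 hnu1.le))

end CQ
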