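import Pool.Agent.Helper9.CQ.Contr

/-! Existence of the eigenvalue (module LAMA). -/

namespace CQ
open CC Filter Topology

private theorem la_m {q : ℝ} (hq : 0 < q) : 1 ≤ max q q⁻¹ := by
  rcases le_total 1 q with h | h
  · exact h.trans (le_max_left _ _)
  · exact (one_le_inv_iff₀.2 ⟨hq, h⟩).trans (le_max_right _ _)

private theorem la_zpow {q : ℝ} (hq : 0 < q) {z : ℤ} {K : ℕ} (h : |z| ≤ K) :
    q ^ z ≤ (max q q⁻¹) ^ K := by
  have h1 := la_m hq
  have h2 : q ^ z ≤ (max q q⁻¹) ^ z.natAbs := by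
    rcases le_total 0 z with hz | hz
    · obtain ⟨n, rfl⟩ := Int.eq_ofNat_of_zero_le hz
      rw [zpow_natCast, Int.natAbs_natCast]
      exact pow_le_pow_left₀ hq.le (le_max_left _ _) n
    · obtain ⟨n, hn⟩ := Int.eq_ofNat_of_zero_le (neg_nonneg.2 hz)
      have : z = -(n : ℤ) := by omega
      subst this
      rw [zpow_neg, zpow_natCast, ← inv_pow, Int.natAbs_neg, Int.natAbs_natCast]
      exact pow_le_pow_left₀ (by positivity) (le_max_right _ _) n
  refine h2.trans (pow_le_pow_right₀ h1 ?_)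
  have h3 : ((z.natAbs : ℕ) : ℤ) ≤ K := by rw [Int.natCast_natAbs]; exact h
  exact_mod_cast h3

private theorem la_tq_single (q : ℝ) (X : Q) : tq q (Finsupp.single X 1) = ((q ^ X.2 : ℝ) : ℂ) := by
  rw [tq, itg_single, mul_one]

/-- integer bound for the displacement -/
private theorem la_disp {f : Q → Q} {b : ℝ} (hb : ∀ X, ‖((f X).2 : ℂ) - X.2‖ ≤ b) (X : Q) :
    |(f X).2 - X.2| ≤ (⌈b⌉₊ : ℤ) := by
  have h1 := hb X
  have h2 : ‖((f X).2 : ℂ) - X.2‖ = ((|(f X).2 - X.2| : ℤ) : ℝ) := by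
    rw [← Int.cast_sub, Complex.norm_intCast, Int.cast_abs]
  rw [h2] at h1
  have h3 : ((|(f X).2 - X.2| : ℤ) : ℝ) ≤ ((⌈b⌉₊ : ℤ) : ℝ) := by
    push_cast
    push_cast at h1
    exact h1.trans (Nat.le_ceil b)
  exact_mod_cast h3

private theorem la_bound {A : M →ₗ[ℂ] M} (hA : A ∈ BD) : ∃ C : ℝ, 0 ≤ C ∧ ∃ m : ℕ, ∀ q : ℝ, 0 < q →
    ∀ X : Q, ‖tq q (A (Finsupp.single X 1))‖ ≤ C * (max q q⁻¹) ^ m * q ^ X.2 := by
  unfold BD at hA
  induction hA using Submodule.span_induction with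
  | mem F hF =>
    obtain ⟨f, ⟨b, hb⟩, rfl⟩ := hF
    refine ⟨1, zero_le_one, ⌈b⌉₊, fun q hq X => ?_⟩
    rw [Finsupp.lmapDomain_apply, Finsupp.mapDomain_single, la_tq_single, Complex.norm_real,
      Real.norm_of_nonneg (by positivity), one_mul]
    have h2 : q ^ (f X).2 = q ^ ((f X).2 - X.2) * q ^ X.2 := by
      rw [← zpow_add₀ hq.ne']; congr 1; ring
    rw [h2]
    exact mul_le_mul_of_nonneg_right (la_zpow hq (la_disp hb X)) (by positivity)
  | zero => exact ⟨0, le_rfl, 0, fun q hq X => by simp⟩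
  | add x y _ _ hx hy =>
    obtain ⟨a, ha0, m, ha⟩ := hx
    obtain ⟨b, hb0, n, hb⟩ := hy
    refine ⟨a + b, add_nonneg ha0 hb0, max m n, fun q hq X => ?_⟩
    have h1 := la_m hq
    rw [LinearMap.add_apply, map_add]
    refine (norm_add_le _ _).trans ((add_le_add (ha q hq X) (hb q hq X)).trans ?_)
    have e1 : (max q q⁻¹) ^ m ≤ (max q q⁻¹) ^ (max m n) := pow_le_pow_right₀ h1 (le_max_left _ _)
    have e2 : (max q q⁻¹) ^ n ≤ (max q q⁻¹) ^ (max m n) := pow_le_pow_right₀ h1 (le_max_right _ _)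
    have e3 : (0 : ℝ) < q ^ X.2 := by positivity
    rw [add_mul, add_mul]
    gcongr
  | smul r x _ hx =>
    obtain ⟨a, ha0, m, ha⟩ := hx
    refine ⟨‖r‖ * a, by positivity, m, fun q hq X => ?_⟩
    rw [LinearMap.smul_apply, map_smul, smul_eq_mul, norm_mul, mul_assoc, mul_assoc, ← mul_assoc a]
    exact mul_le_mul_of_nonneg_left (ha q hq X) (norm_nonneg r)

/-- `T L z` is a combination of maps with bounded displacement of the counter.  Proof: span
induction as for `CC.BD` (with integer bounds). -/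
theorem tq_T_bound (L : ℕ) (z : ℂ) : ∃ C : ℝ, 0 ≤ C ∧ ∃ m : ℕ, ∀ q : ℝ, 0 < q → ∀ X : Q,
    ‖tq q (T L z (Finsupp.single X 1))‖ ≤ C * (max q q⁻¹) ^ m * q ^ X.2 :=
  la_bound (BD_T L z)

private theorem la_pow_sub {q : ℝ} (h0 : 1 / 2 ≤ q) (h2 : q ≤ 2) (n : ℕ) :
    |q ^ n - 1| ≤ n * 2 ^ n * |q - 1| := by
  have h : q ^ n - 1 = (q - 1) * ∑ j ∈ Finset.range n, q ^ j := by
    rw [mul_comm, geom_sum_mul]
  rw [h, abs_mul, mul_comm]
  refine mul_le_mul_of_nonneg_right ?_ (abs_nonneg _)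
  rw [abs_of_nonneg (Finset.sum_nonneg fun j _ => by positivity)]
  calc ∑ j ∈ Finset.range n, q ^ j ≤ ∑ j ∈ Finset.range n, (2 : ℝ) ^ n := by
        refine Finset.sum_le_sum fun j hj => ?_
        calc q ^ j ≤ 2 ^ j := pow_le_pow_left₀ (by linarith) h2 j
          _ ≤ 2 ^ n := pow_le_pow_right₀ (by norm_num) (Finset.mem_range.1 hj).le
    _ = n * 2 ^ n := by rw [Finset.sum_const, Finset.card_range, nsmul_eq_mul]

private theorem la_zpow_sub {q : ℝ} (h0 : 1 / 2 ≤ q) (h2 : q ≤ 2) {z : ℤ} {m : ℕ} (h : |z| ≤ m) :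
    |q ^ z - 1| ≤ m * 4 ^ m * |q - 1| := by
  have hq : 0 < q := by linarith
  have key : ∀ n : ℕ, n ≤ m → (n : ℝ) * 2 ^ n * |q - 1| * 2 ^ n ≤ m * 4 ^ m * |q - 1| := by
    intro n hn
    have e1 : (n : ℝ) * 2 ^ n * |q - 1| * 2 ^ n = n * 4 ^ n * |q - 1| := by
      rw [show (4 : ℝ) = 2 * 2 by norm_num, mul_pow]
      ring
    rw [e1]
    have e2 : (n : ℝ) ≤ m := by exact_mod_cast hn
    have e3 : (4 : ℝ) ^ n ≤ 4 ^ m := pow_le_pow_right₀ (by norm_num) hn
    gcongr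
  rcases le_total 0 z with hz | hz
  · obtain ⟨n, rfl⟩ := Int.eq_ofNat_of_zero_le hz
    rw [abs_of_nonneg hz] at h
    have hn : n ≤ m := by exact_mod_cast h
    rw [zpow_natCast]
    refine (la_pow_sub h0 h2 n).trans (le_trans ?_ (key n hn))
    exact le_mul_of_one_le_right (by positivity) (one_le_pow₀ (by norm_num))
  · obtain ⟨n, hn'⟩ := Int.eq_ofNat_of_zero_le (neg_nonneg.2 hz)
    have : z = -(n : ℤ) := by omega
    subst this
    rw [abs_neg, abs_of_nonneg (by positivity)] at h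
    have hn : n ≤ m := by exact_mod_cast h
    have e : q ^ (-(n : ℤ)) - 1 = -(q ^ n - 1) * (q ^ n)⁻¹ := by
      rw [zpow_neg, zpow_natCast]
      field_simp
      ring
    rw [e, abs_mul, abs_neg, abs_of_pos (by positivity : (0 : ℝ) < (q ^ n)⁻¹)]
    refine le_trans (mul_le_mul (la_pow_sub h0 h2 n) ?_ (by positivity) (by positivity)) (key n hn)
    rw [← inv_pow]
    refine pow_le_pow_left₀ (by positivity) ?_ n
    rw [inv_le_comm₀ hq (by norm_num)]
    linarith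

private theorem la_lip {A : M →ₗ[ℂ] M} (hA : A ∈ BD) : ∃ C : ℝ, ∀ q ∈ Set.Icc (1 / 2 : ℝ) 2,
    ∀ X : Q, ‖tq q (A (Finsupp.single X 1)) - tot (A (Finsupp.single X 1)) * (q ^ X.2 : ℝ)‖ ≤
      C * |q - 1| * q ^ X.2 := by
  unfold BD at hA
  induction hA using Submodule.span_induction with
  | mem F hF =>
    obtain ⟨f, ⟨b, hb⟩, rfl⟩ := hF
    refine ⟨⌈b⌉₊ * 4 ^ ⌈b⌉₊, fun q hq X => ?_⟩
    obtain ⟨h0, h2⟩ := hq
    have hq0 : 0 < q := by linarith
    rw [Finsupp.lmapDomain_apply, Finsupp.mapDomain_single, la_tq_single, tot_single, one_mul,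
      ← Complex.ofReal_sub, Complex.norm_real, Real.norm_eq_abs]
    have e : q ^ (f X).2 - q ^ X.2 = (q ^ ((f X).2 - X.2) - 1) * q ^ X.2 := by
      rw [sub_mul, ← zpow_add₀ hq0.ne', one_mul]; congr 2; ring
    rw [e, abs_mul, abs_of_pos (by positivity : (0 : ℝ) < q ^ X.2)]
    exact mul_le_mul_of_nonneg_right (la_zpow_sub h0 h2 (la_disp hb X)) (by positivity)
  | zero => exact ⟨0, fun q _ X => by simp⟩
  | add x y _ _ hx hy =>
    obtain ⟨a, ha⟩ := hx
    obtain ⟨b, hb⟩ := hy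
    refine ⟨a + b, fun q hq X => ?_⟩
    have e : tq q ((x + y) (Finsupp.single X 1)) -
        tot ((x + y) (Finsupp.single X 1)) * (q ^ X.2 : ℝ) =
        (tq q (x (Finsupp.single X 1)) - tot (x (Finsupp.single X 1)) * (q ^ X.2 : ℝ)) +
        (tq q (y (Finsupp.single X 1)) - tot (y (Finsupp.single X 1)) * (q ^ X.2 : ℝ)) := by
      rw [LinearMap.add_apply, map_add, map_add]; ring
    rw [e]
    refine (norm_add_le _ _).trans ((add_le_add (ha q hq X) (hb q hq X)).trans (le_of_eq ?_))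
    ring
  | smul r x _ hx =>
    obtain ⟨a, ha⟩ := hx
    refine ⟨‖r‖ * a, fun q hq X => ?_⟩
    have e : tq q ((r • x) (Finsupp.single X 1)) -
        tot ((r • x) (Finsupp.single X 1)) * (q ^ X.2 : ℝ) =
        r * (tq q (x (Finsupp.single X 1)) - tot (x (Finsupp.single X 1)) * (q ^ X.2 : ℝ)) := by
      rw [LinearMap.smul_apply, map_smul, map_smul, smul_eq_mul, smul_eq_mul]; ring
    rw [e, norm_mul, mul_assoc, mul_assoc, ← mul_assoc a]
    exact mul_le_mul_of_nonneg_left (ha q hq X) (norm_nonneg r)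

theorem tq_T_lip (L : ℕ) (z : ℂ) : ∃ C : ℝ, ∀ q ∈ Set.Icc (1 / 2 : ℝ) 2, ∀ X : Q,
    ‖tq q (T L z (Finsupp.single X 1)) - nT L z * (q ^ X.2 : ℝ)‖ ≤ C * |q - 1| * q ^ X.2 := by
  obtain ⟨C, hC⟩ := la_lip (BD_T L z)
  refine ⟨C, fun q hq X => ?_⟩
  have := hC q hq X
  rwa [tot_T, tot_single, mul_one] at this

private theorem la_tq_Xi {q : ℝ} (hq : 0 < q) (x : M) : tq q (Xi x) = q * tq q x := by
  refine lin_ext (f := tq q ∘ₗ Xi) (g := (q : ℂ) • tq q) (fun X => ?_) x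
  rw [LinearMap.comp_apply, Xi_single, la_tq_single, LinearMap.smul_apply, la_tq_single, smul_eq_mul,
    ← Complex.ofReal_mul]
  congr 1
  show q ^ (X.2 + 1) = q * q ^ X.2
  rw [zpow_add_one₀ hq.ne', mul_comm]

/-- the functional `tq q ∘ T L z` as an integral -/
private theorem la_itg (q : ℝ) (L : ℕ) (z : ℂ) (x : M) :
    itg (fun X => tq q (T L z (Finsupp.single X 1))) x = tq q (T L z x) := by
  refine lin_ext (f := itg (fun X => tq q (T L z (Finsupp.single X 1)))) (g := tq q ∘ₗ T L z)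
    (fun X => ?_) x
  rw [itg_single, mul_one, LinearMap.comp_apply]

private theorem la_exists (L : ℕ) (z : ℂ) : ∃ C : ℝ, 0 ≤ C ∧ ∃ m : ℕ, ∀ q : ℝ, 0 < q → ∃ l : ℂ,
    ∀ N, ∀ X ∈ Rset L, ‖tq q (T L z (((Ts L) ^ N) (Finsupp.single X 1))) - l * v q L N X‖ ≤
        C * (max q q⁻¹) ^ m * (1 - ee q L) ^ N * v q L N X := by
  obtain ⟨C, hC0, m, hC⟩ := tq_T_bound L z
  refine ⟨2 * C, by positivity, m, fun q hq => ?_⟩
  obtain ⟨l, hl⟩ := ratio hq L (fun X => tq q (T L z (Finsupp.single X 1))) (fun X => by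
    show tq q (T L z (Finsupp.single (sh X) 1)) = q * tq q (T L z (Finsupp.single X 1))
    rw [← Xi_single, ← Xi_T, la_tq_Xi hq]) (C * (max q q⁻¹) ^ m) (fun X _ => hC q hq X)
  refine ⟨l, fun N X hX => ?_⟩
  have := hl N X hX
  rw [la_itg] at this
  rwa [← mul_assoc] at this

/-- existence of the eigenvalue, with the rate of convergence -/
theorem lam_exists (L : ℕ) : ∃ lam : ℝ → ℂ → ℂ, ∀ z, ∃ C : ℝ, 0 ≤ C ∧ ∃ m : ℕ, ∀ q : ℝ, 0 < q →
    ∀ N, ∀ X ∈ Rset L,
      ‖tq q (T L z (((Ts L) ^ N) (Finsupp.single X 1))) - lam q z * v q L N X‖ ≤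
        C * (max q q⁻¹) ^ m * (1 - ee q L) ^ N * v q L N X := by
  classical
  choose C hC0 m hm using la_exists L
  refine ⟨fun q z => if hq : 0 < q then (hm z q hq).choose else 0, fun z => ⟨C z, hC0 z, m z,
    fun q hq => ?_⟩⟩
  simp only [dif_pos hq]
  exact (hm z q hq).choose_spec

/-- the eigenvalue -/
noncomputable def lamE (L : ℕ) : ℝ → ℂ → ℂ := (lam_exists L).choose

theorem lamE_spec (L : ℕ) (z : ℂ) : ∃ C : ℝ, 0 ≤ C ∧ ∃ m : ℕ, ∀ q : ℝ, 0 < q →
    ∀ N, ∀ X ∈ Rset L,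
      ‖tq q (T L z (((Ts L) ^ N) (Finsupp.single X 1))) - lamE L q z * v q L N X‖ ≤
        C * (max q q⁻¹) ^ m * (1 - ee q L) ^ N * v q L N X :=
  (lam_exists L).choose_spec z

private theorem la_rate {q : ℝ} (hq : 0 < q) (L : ℕ) (A : ℝ) :
    Tendsto (fun N => A * (1 - ee q L) ^ N) atTop (𝓝 0) := by
  have h1 : 0 ≤ 1 - ee q L := by have := ee_le hq L; linarith
  have h2 : 1 - ee q L < 1 := by have := ee_pos hq L; linarith
  simpa using (tendsto_pow_atTop_nhds_zero_of_lt_one h1 h2).const_mul A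

private theorem la_mu (L N : ℕ) : mu L N = ((Ts L) ^ N) (Finsupp.single (F0, 0) 1) := rfl

private theorem la_quot (L : ℕ) (z : ℂ) : ∃ C : ℝ, 0 ≤ C ∧ ∃ m : ℕ, ∀ q : ℝ, 0 < q →
    ∀ N, ‖tq q (T L z (mu L N)) / v q L N (F0, 0) - lamE L q z‖ ≤
      C * (max q q⁻¹) ^ m * (1 - ee q L) ^ N := by
  obtain ⟨C, hC0, m, hC⟩ := lamE_spec L z
  refine ⟨C, hC0, m, fun q hq N => ?_⟩
  have h1 := hC q hq N (F0, 0) (F0_mem L 0)
  have hv := v_pos hq L N (F0, 0)
  have hv' : (v q L N (F0, 0) : ℂ) ≠ 0 := by exact_mod_cast hv.ne'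
  have e : tq q (T L z (mu L N)) / v q L N (F0, 0) - lamE L q z =
      (tq q (T L z (mu L N)) - lamE L q z * v q L N (F0, 0)) / v q L N (F0, 0) := by
    field_simp
  rw [e, norm_div, Complex.norm_real, Real.norm_of_nonneg hv.le, div_le_iff₀ hv]
  exact h1

/-- with the initial state `x0`: `mu L N = (Ts L) ^ N x0` -/
theorem lamE_tendsto (L : ℕ) {q : ℝ} (hq : 0 < q) (z : ℂ) : Tendsto (fun N =>
    tq q (T L z (mu L N)) / v q L N (F0, 0)) atTop (𝓝 (lamE L q z)) := by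
  obtain ⟨C, hC0, m, hC⟩ := la_quot L z
  rw [tendsto_iff_norm_sub_tendsto_zero]
  refine squeeze_zero (fun _ => norm_nonneg _) (fun N => hC q hq N) (la_rate hq L _)

/-- products: `T L y (mu L N) = (Ts L) ^ N (T L y x0)` (`T_mu`) is a combination of
`(Ts L) ^ N (single X 1)`, `X ∈ Rset L` (`T_supp`) -/
theorem lamE_tendsto2 (L : ℕ) {q : ℝ} (hq : 0 < q) (z y : ℂ)
    (hy : (w * y - (1 - w)) * (w - (1 - w) * y) ≠ 0) : Tendsto (fun N =>
    tq q (T L z (T L y (mu L N))) / v q L N (F0, 0)) atTop (𝓝 (lamE L q z * lamE L q y)) := by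
  obtain ⟨C, hC0, m, hC⟩ := lamE_spec L z
  set x : M := T L y x0 with hx
  have hx1 : x ∈ Finsupp.supported ℂ ℂ (Rset L) := by
    refine T_supp L y ?_
    unfold x0
    exact Finsupp.single_mem_supported ℂ 1 (F0_mem L 0)
  have hxR : ∀ X ∈ x.support, X ∈ Rset L := fun X hX =>
    (Finsupp.mem_supported ℂ x).1 hx1 (Finset.mem_coe.2 hX)
  have hxs : x = ∑ X ∈ x.support, x X • Finsupp.single X (1 : ℂ) := by
    conv_lhs => rw [← Finsupp.sum_single x]
    unfold Finsupp.sum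
    refine Finset.sum_congr rfl fun X _ => ?_
    rw [Finsupp.smul_single, smul_eq_mul, mul_one]
  set K : ℝ := ∑ X ∈ x.support, ‖x X‖ * (C * (max q q⁻¹) ^ m * ((max q q⁻¹) ^ (L + 1) * q ^ X.2)) with hK
  have hdiff : ∀ N, ‖tq q (T L z (T L y (mu L N))) - lamE L q z * tq q (T L y (mu L N))‖ ≤
      K * (1 - ee q L) ^ N * v q L N (F0, 0) := by
    intro N
    have e1 : T L y (mu L N) = ∑ X ∈ x.support, x X • ((Ts L) ^ N) (Finsupp.single X 1) := by
      rw [T_mu L N y hy, ← hx]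
      conv_lhs => rw [hxs]
      rw [map_sum]
      refine Finset.sum_congr rfl fun X _ => ?_
      rw [map_smul]
    rw [e1]
    simp only [map_sum, map_smul, smul_eq_mul, Finset.mul_sum, v_eq, ← Finset.sum_sub_distrib]
    refine (norm_sum_le _ _).trans ?_
    rw [hK, Finset.sum_mul, Finset.sum_mul]
    refine Finset.sum_le_sum fun X hX => ?_
    have h1 := hC q hq N X (hxR X hX)
    have h2 := v_cmp hq L N (hxR X hX) (F0_mem L 0)
    have e2 : x X * tq q (T L z (((Ts L) ^ N) (Finsupp.single X 1))) - lamE L q z * (x X * v q L N X) =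
        x X * (tq q (T L z (((Ts L) ^ N) (Finsupp.single X 1))) - lamE L q z * v q L N X) := by ring
    rw [e2, norm_mul]
    have hee : 0 ≤ 1 - ee q L := by have := ee_le hq L; linarith
    have hM := la_m hq
    have h3 : v q L N X ≤ (max q q⁻¹) ^ (L + 1) * q ^ X.2 * v q L N (F0, 0) := by
      have : X.2 - ((F0, 0) : Q).2 = X.2 := by simp
      rwa [this] at h2
    calc ‖x X‖ * ‖tq q (T L z (((Ts L) ^ N) (Finsupp.single X 1))) - lamE L q z * v q L N X‖
        ≤ ‖x X‖ * (C * (max q q⁻¹) ^ m * (1 - ee q L) ^ N * v q L N X) := by gcongr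
      _ ≤ ‖x X‖ * (C * (max q q⁻¹) ^ m * (1 - ee q L) ^ N *
          ((max q q⁻¹) ^ (L + 1) * q ^ X.2 * v q L N (F0, 0))) := by gcongr
      _ = _ := by ring
  have hlim := (lamE_tendsto L hq y).const_mul (lamE L q z)
  have h0 : Tendsto (fun N => tq q (T L z (T L y (mu L N))) / v q L N (F0, 0) -
      lamE L q z * (tq q (T L y (mu L N)) / v q L N (F0, 0))) atTop (𝓝 0) := by
    rw [tendsto_zero_iff_norm_tendsto_zero]
    refine squeeze_zero (fun _ => norm_nonneg _) (fun N => ?_) (la_rate hq L K)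
    have hv := v_pos hq L N (F0, 0)
    have e : tq q (T L z (T L y (mu L N))) / v q L N (F0, 0) -
        lamE L q z * (tq q (T L y (mu L N)) / v q L N (F0, 0)) =
        (tq q (T L z (T L y (mu L N))) - lamE L q z * tq q (T L y (mu L N))) / v q L N (F0, 0) := by
      ring
    rw [e, norm_div, Complex.norm_real, Real.norm_of_nonneg hv.le, div_le_iff₀ hv]
    exact hdiff N
  have := h0.add hlim
  simpa using this

/-- continuity in the weight -/
theorem lamE_cont (L : ℕ) (z : ℂ) : ContinuousOn (fun q => lamE L q z) (Set.Ioi 0) := by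
  obtain ⟨C, hC0, m, hC⟩ := la_quot L z
  have htq : ∀ x : M, ContinuousOn (fun q : ℝ => tq q x) (Set.Ioi 0) := by
    intro x
    have e : (fun q : ℝ => tq q x) = fun q : ℝ => ∑ X ∈ x.support, ((q ^ X.2 : ℝ) : ℂ) * x X := by
      have hxs : x = ∑ X ∈ x.support, x X • Finsupp.single X (1 : ℂ) := by
        conv_lhs => rw [← Finsupp.sum_single x]
        unfold Finsupp.sum
        refine Finset.sum_congr rfl fun X _ => ?_
        rw [Finsupp.smul_single, smul_eq_mul, mul_one]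
      funext q
      conv_lhs => rw [hxs]
      rw [map_sum]
      refine Finset.sum_congr rfl fun X _ => ?_
      rw [map_smul, la_tq_single, smul_eq_mul, mul_comm]
    rw [e]
    refine continuousOn_finsetSum _ fun X _ => ContinuousOn.mul ?_ continuousOn_const
    refine Complex.continuous_ofReal.comp_continuousOn ?_
    exact continuousOn_id.zpow₀ _ fun q hq => Or.inl (ne_of_gt hq)
  have hvc : ∀ N, ContinuousOn (fun q : ℝ => v q L N (F0, 0)) (Set.Ioi 0) := fun N =>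
    Complex.continuous_re.comp_continuousOn (htq _)
  have hFc : ∀ N, ContinuousOn (fun q : ℝ => tq q (T L z (mu L N)) / (v q L N (F0, 0) : ℂ)) (Set.Ioi 0) := by
    intro N
    refine (htq _).div (Complex.continuous_ofReal.comp_continuousOn (hvc N)) fun q hq => ?_
    exact_mod_cast (v_pos hq L N (F0, 0)).ne'
  intro q0 hq0
  have hq0' : (0 : ℝ) < q0 := hq0
  refine continuousWithinAt_of_locally_uniform_approx_of_continuousWithinAt hq0 fun u hu => ?_
  obtain ⟨ε, hε, hεu⟩ := Metric.mem_uniformity_dist.1 hu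
  -- uniform constants near `q0`
  set B : ℝ := max (2 * q0) (2 * q0⁻¹) with hB
  have hB1 : ∀ q : ℝ, q0 / 2 < q → q < 2 * q0 → max q q⁻¹ ≤ B := by
    intro q h1 h2
    have hq : 0 < q := by linarith
    refine max_le (h2.le.trans (le_max_left _ _)) (le_trans ?_ (le_max_right _ _))
    rw [inv_le_comm₀ hq (by positivity), mul_inv, inv_inv]
    linarith
  have hB0 : 1 ≤ B := (la_m hq0').trans (hB1 q0 (by linarith) (by linarith))
  set e1 : ℝ := (4 ^ L * B ^ (3 * L + 2))⁻¹ ^ 2 with he1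
  have he1p : 0 < e1 := by positivity
  have hee : ∀ q : ℝ, q0 / 2 < q → q < 2 * q0 → e1 ≤ ee q L := by
    intro q h1 h2
    have hq : 0 < q := by linarith
    have hM := la_m hq
    unfold ee
    rw [he1]
    refine pow_le_pow_left₀ (by positivity) ?_ 2
    apply inv_anti₀ (by positivity)
    have := hB1 q h1 h2
    gcongr
  have he1le : e1 ≤ 1 := (hee q0 (by linarith) (by linarith)).trans (ee_le hq0' L)
  have hlim : Tendsto (fun N => C * B ^ m * (1 - e1) ^ N) atTop (𝓝 0) := by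
    simpa using (tendsto_pow_atTop_nhds_zero_of_lt_one (by linarith : 0 ≤ 1 - e1)
      (by linarith : 1 - e1 < 1)).const_mul (C * B ^ m)
  obtain ⟨N, hN⟩ := (hlim.eventually (gt_mem_nhds hε)).exists
  refine ⟨Set.Ioo (q0 / 2) (2 * q0), ?_, fun q => tq q (T L z (mu L N)) / (v q L N (F0, 0) : ℂ),
    hFc N q0 hq0, fun q hq => hεu ?_⟩
  · exact mem_nhdsWithin_of_mem_nhds (Ioo_mem_nhds (by linarith) (by linarith))
  · obtain ⟨h1, h2⟩ := hq
    have hq' : 0 < q := by linarith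
    rw [dist_comm, dist_eq_norm]
    have hM := la_m hq'
    have g1 := hee q h1 h2
    have g2 := ee_le hq' L
    calc ‖tq q (T L z (mu L N)) / (v q L N (F0, 0) : ℂ) - lamE L q z‖
        ≤ C * (max q q⁻¹) ^ m * (1 - ee q L) ^ N := hC q hq' N
      _ ≤ C * B ^ m * (1 - e1) ^ N := by
          have g3 := hB1 q h1 h2
          have g4 : 0 ≤ 1 - ee q L := by linarith
          gcongr
      _ < ε := hN

private theorem la_itg_le {q : ℝ} (L N : ℕ) (g : Q → ℂ) (K : ℝ)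
    (hg : ∀ X, ‖g X‖ ≤ K * q ^ X.2) (X : Q) :
    ‖itg g (((Ts L) ^ N) (Finsupp.single X 1))‖ ≤ K * v q L N X := by
  obtain ⟨φ, hφ, -⟩ := words L
  induction N generalizing X with
  | zero =>
    rw [v_zero, pow_zero, Module.End.one_apply, itg_single, mul_one]
    exact hg X
  | succ N ih =>
    have e1 : ∀ g : Q → ℂ, itg g (((Ts L) ^ (N + 1)) (Finsupp.single X 1)) =
        (4 ^ L : ℂ)⁻¹ * ∑ a, itg g (((Ts L) ^ N) (Finsupp.single (φ a X) 1)) := by
      intro g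
      rw [pow_step, hφ, itg_single, mul_one]
    have e2 : v q L (N + 1) X = (4 ^ L : ℝ)⁻¹ * ∑ a, v q L N (φ a X) := by
      have h1 := v_eq q L (N + 1) X
      rw [tq, e1] at h1
      have h2 : ∀ a, itg (fun X => ((q ^ X.2 : ℝ) : ℂ)) (((Ts L) ^ N) (Finsupp.single (φ a X) 1)) =
          (v q L N (φ a X) : ℂ) := fun a => v_eq q L N (φ a X)
      simp only [h2] at h1
      have h3 : ((v q L (N + 1) X : ℝ) : ℂ) = (((4 ^ L : ℝ)⁻¹ * ∑ a, v q L N (φ a X) : ℝ) : ℂ) := by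
        rw [← h1]
        push_cast
        rfl
      exact_mod_cast h3
    rw [e1, e2, norm_mul, norm_inv, norm_pow, show ‖(4 : ℂ)‖ = 4 by norm_num, mul_left_comm]
    refine mul_le_mul_of_nonneg_left ?_ (by positivity)
    rw [Finset.mul_sum]
    exact (norm_sum_le _ _).trans (Finset.sum_le_sum fun a _ => ih (φ a X))

/-- `|Λ(z) - n(z)| ≤ C |q - 1|` -/
theorem lamE_lip (L : ℕ) (z : ℂ) : ∃ C : ℝ, ∀ q ∈ Set.Icc (1 / 2 : ℝ) 2,
    ‖lamE L q z - nT L z‖ ≤ C * |q - 1| := by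
  obtain ⟨C, hC⟩ := tq_T_lip L z
  refine ⟨C, fun q hq => ?_⟩
  have hq0 : 0 < q := by have := hq.1; linarith
  have h1 := ((lamE_tendsto L hq0 z).sub_const (nT L z)).norm
  refine le_of_tendsto' h1 fun N => ?_
  have hv := v_pos hq0 L N (F0, 0)
  have hv' : (v q L N (F0, 0) : ℂ) ≠ 0 := by exact_mod_cast hv.ne'
  have h2 := la_itg_le L N (fun X => tq q (T L z (Finsupp.single X 1)) - nT L z * (q ^ X.2 : ℝ))
    (C * |q - 1|) (fun X => hC q hq X) (F0, 0)
  have h3 : itg (fun X => tq q (T L z (Finsupp.single X 1)) - nT L z * (q ^ X.2 : ℝ)) (mu L N) =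
      tq q (T L z (mu L N)) - nT L z * v q L N (F0, 0) := by
    have h4 : ∀ x : M, itg (fun X => tq q (T L z (Finsupp.single X 1)) - nT L z * (q ^ X.2 : ℝ)) x =
        tq q (T L z x) - nT L z * tq q x := by
      intro x
      refine lin_ext (f := itg (fun X => tq q (T L z (Finsupp.single X 1)) - nT L z * (q ^ X.2 : ℝ)))
        (g := tq q ∘ₗ T L z - nT L z • tq q) (fun X => ?_) x
      rw [itg_single, mul_one, LinearMap.sub_apply, LinearMap.comp_apply, LinearMap.smul_apply,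
        la_tq_single, smul_eq_mul]
    rw [h4, la_mu, v_eq]
  rw [← la_mu, h3] at h2
  have e : tq q (T L z (mu L N)) / v q L N (F0, 0) - nT L z =
      (tq q (T L z (mu L N)) - nT L z * v q L N (F0, 0)) / v q L N (F0, 0) := by
    field_simp
  rw [e, norm_div, Complex.norm_real, Real.norm_of_nonneg hv.le, div_le_iff₀ hv]
  exact h2

end CQ
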