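import Pool.Agent.Helper9.CQ.LamA
import Pool.Agent.Helper9.CC.Lim

/-! The eigenvalue as a polynomial, fixed weight (module LAMB). -/

namespace CQ
open CC Filter Topology Polynomial

theorem tq_single (q : ℝ) (X : Q) (c : ℂ) : tq q (Finsupp.single X c) = ((q ^ X.2 : ℝ) : ℂ) * c := by
  unfold tq; rw [itg_single]

theorem tq_Xi {q : ℝ} (hq : 0 < q) (x : M) : tq q (Xi x) = q * tq q x :=
  lin_ext (f := tq q ∘ₗ Xi) (g := (q:ℂ) • tq q) (fun X => by
    rw [LinearMap.comp_apply, Xi_single, tq_single, LinearMap.smul_apply, tq_single, smul_eq_mul]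
    show ((q ^ (X.2 + 1) : ℝ) : ℂ) * 1 = _
    rw [zpow_add_one₀ hq.ne']
    push_cast
    ring) x

theorem tq_mu (q : ℝ) (L N : ℕ) : tq q (mu L N) = (v q L N (F0, 0) : ℂ) := v_eq q L N (F0, 0)

/-- `Λ` is a polynomial of degree at most `2 L + 2`, with the values at `w`, `1 - w`, `0`, and the
fusion relation; compare `CC.lim_main` -/
theorem lamE_poly (L : ℕ) {q : ℝ} (hq : 0 < q) : ∃ P : Polynomial ℂ, P.natDegree ≤ 2 * L + 2 ∧
    (∀ z, P.eval z = lamE L q z) ∧
    P.eval w = nT L w ∧ P.eval (1 - w) = nT L (1 - w) ∧ P.eval 0 = (3 * q - 2) * nT L 0 ∧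
    (X - C w) ^ (2 * L + 2) ∣ P.comp (-(C w * X)) * P - (nP L).comp (-(C w * X)) * nP L := by
  have hv : ∀ N, (v q L N (F0, 0) : ℂ) ≠ 0 := fun N => by
    exact_mod_cast (v_pos hq L N (F0, 0)).ne'
  -- the polynomials
  have hP : ∀ N, ∃ P : Polynomial ℂ, P.natDegree ≤ 2 * L + 2 ∧
      ∀ z, tq q (T L z (mu L N)) / v q L N (F0, 0) = P.eval z := by
    intro N
    obtain ⟨P, hP, hP'⟩ := (PF_T L).poly (tq q) (mu L N)
    refine ⟨C ((v q L N (F0, 0) : ℂ)⁻¹) * P, (natDegree_C_mul_le _ _).trans hP, fun z => ?_⟩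
    rw [eval_mul, eval_C, ← hP', div_eq_inv_mul]
  choose P hP hP' using hP
  obtain ⟨G, hG1, hG2, -, -⟩ := poly_limit (2 * L + 2) P hP ∅ Set.finite_empty (lamE L q)
    (fun z _ => by simpa only [hP'] using lamE_tendsto L hq z)
  have hGf : ∀ z, G.eval z = lamE L q z := fun z => hG2 z (Set.notMem_empty z)
  have hlim : ∀ z, Tendsto (fun N => tq q (T L z (mu L N)) / v q L N (F0, 0)) atTop
      (𝓝 (G.eval z)) := fun z => by
    rw [hGf]; exact lamE_tendsto L hq z
  refine ⟨G, hG1, hGf, ?_, ?_, ?_, ?_⟩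
  · have h0 : ∀ N, tq q (T L w (mu L N)) / v q L N (F0, 0) = nT L w := by
      intro N
      rw [T_w L (mu_mem L N), map_smul, smul_eq_mul, tq_mu, mul_div_assoc, div_self (hv N), mul_one]
    exact (tendsto_nhds_unique (hlim w) (by simp only [h0]; exact tendsto_const_nhds))
  · have h0 : ∀ N, tq q (T L (1 - w) (mu L N)) / v q L N (F0, 0) = nT L (1 - w) := by
      intro N
      rw [T_winv L (mu_mem L N), map_smul, smul_eq_mul, tq_mu, mul_div_assoc, div_self (hv N), mul_one]
    exact (tendsto_nhds_unique (hlim (1 - w)) (by simp only [h0]; exact tendsto_const_nhds))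
  · have h0 : ∀ N, tq q (T L 0 (mu L N)) / v q L N (F0, 0) = (3 * q - 2) * nT L 0 := by
      intro N
      rw [mu_zero_val, map_smul, map_sub, map_smul, map_smul, tq_Xi hq, tq_mu]
      simp only [smul_eq_mul]
      field_simp [hv N]
    exact (tendsto_nhds_unique (hlim 0) (by simp only [h0]; exact tendsto_const_nhds))
  · obtain ⟨d, Qop, hQ, hfus⟩ := fusion L
    obtain ⟨ssP, hss1, hss2⟩ := ss_poly
    have hR : ∀ N, ∃ R : Polynomial ℂ, R.natDegree ≤ d ∧
        ∀ z, tq q (Qop z (mu L N)) / v q L N (F0, 0) = R.eval z := by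
      intro N
      obtain ⟨R, hR, hR'⟩ := hQ.poly (tq q) (mu L N)
      refine ⟨C ((v q L N (F0, 0) : ℂ)⁻¹) * R, (natDegree_C_mul_le _ _).trans hR, fun z => ?_⟩
      rw [eval_mul, eval_C, ← hR', div_eq_inv_mul]
    choose R hR1 hR2 using hR
    have hlin : (C w - X : Polynomial ℂ).natDegree ≤ 1 := by compute_degree
    have hK1 : ∀ N, ((C w - X) ^ (2 * L + 2) * R N).natDegree ≤ 2 * L + 2 + d := by
      intro N
      refine natDegree_mul_le.trans (add_le_add ?_ (hR1 N))
      exact (natDegree_pow_le_of_le (2 * L + 2) hlin).trans (by omega)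
    set W : Polynomial ℂ := G.comp (-(C w * X)) * G - (nP L).comp (-(C w * X)) * nP L with hW
    have hWe : ∀ z, W.eval z = G.eval (-(w * z)) * G.eval z - nT L (-(w * z)) * nT L z := by
      intro z
      rw [hW]
      simp only [eval_sub, eval_mul, eval_comp, eval_neg, eval_C, eval_X, nP_eval]
    set S : Set ℂ := {z | (w * z - (1 - w)) * (w - (1 - w) * z) = 0} with hS
    have hSfin : S.Finite := by
      have hne : (C w * X - C (1 - w)) * (C w - C (1 - w) * X) ≠ (0 : Polynomial ℂ) := by
        intro h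
        have := congrArg (eval 0) h
        simp only [eval_mul, eval_sub, eval_C, eval_X, mul_zero, zero_sub, sub_zero, eval_zero] at this
        have h1 : -(1 - w) * w = -1 := by linear_combination w_sq
        rw [h1] at this
        norm_num at this
      refine (((C w * X - C (1 - w)) * (C w - C (1 - w) * X) : Polynomial ℂ).roots.toFinset.finite_toSet).subset ?_
      intro z hz
      rw [Finset.mem_coe, Multiset.mem_toFinset, mem_roots hne, IsRoot.def]
      rw [hS, Set.mem_ofPred_eq] at hz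
      simpa using hz
    obtain ⟨K, -, hK3, -, hK5⟩ := poly_limit (2 * L + 2 + d) (fun N => (C w - X) ^ (2 * L + 2) * R N)
      hK1 S hSfin (fun z => ss z * W.eval z) (fun z hz => by
        have hz' : (w * z - (1 - w)) * (w - (1 - w) * z) ≠ 0 := hz
        have h1 := lamE_tendsto2 L hq (-(w * z)) z hz'
        have h3 := (h1.sub_const (nT L (-(w * z)) * nT L z)).const_mul (ss z)
        rw [← hGf, ← hGf, ← hWe] at h3
        refine h3.congr fun N => ?_
        have h4 := congrArg (tq q) (hfus z (mu L N) (mu_mem L N))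
        simp only [map_smul, map_add, smul_eq_mul] at h4
        rw [eval_mul, eval_pow, eval_sub, eval_C, eval_X, ← hR2]
        have h5 := hv N
        rw [tq_mu] at h4
        field_simp
        linear_combination h4)
    have hKW : K = ssP * W := by
      apply Polynomial.eq_of_infinite_eval_eq
      refine (Set.Finite.infinite_compl hSfin).mono ?_
      intro z hz
      rw [Set.mem_ofPred_eq, hK3 z hz, eval_mul, hss2]
    have hdvd : (C w - X) ^ (2 * L + 2) ∣ K := hK5 _ (fun N => dvd_mul_right _ _)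
    rw [hKW] at hdvd
    have hcop : IsCoprime ((C w - X) ^ (2 * L + 2)) ssP := by
      apply IsCoprime.pow_left
      have : (C w - X : Polynomial ℂ) = -(X - C w) := by ring
      rw [this, IsCoprime.neg_left_iff]
      refine (irreducible_X_sub_C w).coprime_iff_not_dvd.2 ?_
      rw [dvd_iff_isRoot, IsRoot.def, hss2]
      exact ss_w_ne
    have h5 := hcop.dvd_of_dvd_mul_left hdvd
    have : (C w - X : Polynomial ℂ) ^ (2 * L + 2) = (X - C w) ^ (2 * L + 2) := by
      rw [show 2 * L + 2 = 2 * (L + 1) by ring, pow_mul, pow_mul]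
      congr 1
      ring
    rw [← this]
    exact h5

end CQ
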