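import Pool.Agent.Helper9.CQ.LamB
import Pool.Agent.Helper9.CQ.Even
import Pool.Agent.Helper86.EP.Defs

/-! The family of the eigenvalue polynomials (module LAMC). -/

namespace CQ
open CC Filter Topology Polynomial

/-- crossing symmetry of the eigenvalue (`T_even`) -/
theorem lamE_even (L : ℕ) {q : ℝ} (hq : 0 < q) (z : ℂ) (hz : z ≠ 0)
    (hz' : (z + w) * (z + w ^ 2) ≠ 0) : lamE L q z = z ^ (2 * L + 2) * lamE L q z⁻¹ := by
  refine tendsto_nhds_unique (lamE_tendsto L hq z) (((lamE_tendsto L hq z⁻¹).const_mul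
    (z ^ (2 * L + 2))).congr fun N => ?_)
  rw [T_even L z hz hz', map_smul, smul_eq_mul, mul_div_assoc]

theorem Ts_re (L : ℕ) {x : M} (hx : IsRe x) : IsRe (Ts L x) :=
  T_re L 1 (by simp) (nT_one_ne L) hx

theorem mu_re (L N : ℕ) : IsRe (mu L N) := by
  induction N with
  | zero => exact IsRe.single _ 1
  | succ N ih => rw [mu_succ]; exact Ts_re L ih

/-- reality on the unit circle (`T_re`) -/
theorem lamE_re (L : ℕ) {q : ℝ} (hq : 0 < q) (z : ℂ) (hz : ‖z‖ = 1) (hn : nT L z ≠ 0) :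
    (lamE L q z / nT L z).im = 0 := by
  have h1 := (lamE_tendsto L hq z).div_const (nT L z)
  have h2 := (Complex.continuous_im.tendsto _).comp h1
  refine tendsto_nhds_unique h2 ?_
  have h3 : ∀ N, (tq q (T L z (mu L N)) / v q L N (F0, 0) / nT L z).im = 0 := by
    intro N
    have h4 : tq q (T L z (mu L N)) / v q L N (F0, 0) / nT L z =
        tq q ((nT L z)⁻¹ • T L z (mu L N)) / v q L N (F0, 0) := by
      rw [map_smul, smul_eq_mul]
      ring
    rw [h4, Complex.div_ofReal_im]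
    have h5 : (tq q ((nT L z)⁻¹ • T L z (mu L N))).im = 0 :=
      itg_re (fun X => Complex.ofReal_im _) (T_re L z hz hn (mu_re L N))
    rw [h5, zero_div]
  refine (tendsto_const_nhds (x := (0:ℝ))).congr fun N => ?_
  exact (h3 N).symm

theorem circle_inf : ({z : ℂ | ‖z‖ = 1} : Set ℂ).Infinite := by
  refine Set.infinite_of_injOn_mapsTo (f := fun x : ℝ => (⟨x, Real.sqrt (1 - x ^ 2)⟩ : ℂ))
    (s := Set.Icc 0 1) ?_ ?_ (Set.Icc_infinite zero_lt_one)
  · intro x _ y _ h
    exact congrArg Complex.re h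
  · intro x hx
    rw [Set.mem_ofPred_eq, Complex.norm_eq_sqrt_sq_add_sq]
    simp only
    have h0 : 0 ≤ x := hx.1
    have h1 : x ≤ 1 := hx.2
    rw [Real.sq_sqrt (by nlinarith)]
    simp

/-- a complex polynomial, palindromic of degree `N`, whose quotient by a real palindromic polynomial
of degree `N` is real on the unit circle up to finitely many points, is real -/
theorem real_of_circle (N : ℕ) (P : ℂ[X]) (n : ℝ[X]) (hP : P.natDegree ≤ N)
    (h1 : ∀ z : ℂ, z ≠ 0 → P.eval z = z ^ N * P.eval z⁻¹)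
    (h2 : ∀ z : ℂ, z ≠ 0 → aeval z n = z ^ N * aeval z⁻¹ n)
    (h3 : ∀ z : ℂ, ‖z‖ = 1 → aeval z n ≠ 0 → (P.eval z / aeval z n).im = 0) (h4 : n ≠ 0) :
    ∃ p : ℝ[X], p.map (algebraMap ℝ ℂ) = P := by
  have _ := hP
  have hbar : P.map (starRingEnd ℂ) = P := by
    have hfin : ({z : ℂ | aeval z n = 0} : Set ℂ).Finite := by
      have hne : n.map (algebraMap ℝ ℂ) ≠ 0 := by
        rwa [Ne, Polynomial.map_eq_zero]
      refine ((n.map (algebraMap ℝ ℂ)).roots.toFinset.finite_toSet).subset ?_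
      intro z hz
      rw [Finset.mem_coe, Multiset.mem_toFinset, mem_roots hne, IsRoot.def, eval_map_algebraMap]
      exact hz
    apply Polynomial.eq_of_infinite_eval_eq
    refine (circle_inf.sdiff hfin).mono ?_
    rintro y ⟨hy, hy'⟩
    have hy1 : ‖y‖ = 1 := hy
    have hy0 : y ≠ 0 := by
      intro h
      rw [h, norm_zero] at hy1
      exact zero_ne_one hy1
    have hyn : aeval y n ≠ 0 := hy'
    have hinv : (starRingEnd ℂ) y = y⁻¹ := by
      rw [Complex.inv_def, Complex.normSq_eq_norm_sq, hy1]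
      simp
    have hcn : (starRingEnd ℂ) (aeval y⁻¹ n) = aeval y n := by
      rw [← hinv, ← aeval_conj, Complex.conj_conj]
    have hcP : (P.map (starRingEnd ℂ)).eval y = (starRingEnd ℂ) (P.eval y⁻¹) := by
      rw [← hinv, eval_map, ← eval₂_id, hom_eval₂, RingHom.comp_id, Complex.conj_conj]
    have hyn' : aeval y⁻¹ n ≠ 0 := by
      intro h
      rw [h, map_zero] at hcn
      exact hyn hcn.symm
    have h5 := h3 y⁻¹ (by rw [norm_inv, hy1, inv_one]) hyn'
    have h6 := Complex.conj_eq_iff_im.2 h5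
    rw [map_div₀, hcn, ← hcP] at h6
    have h7 := h1 y hy0
    have h8 := h2 y hy0
    rw [Set.mem_ofPred_eq]
    rw [div_eq_div_iff hyn hyn'] at h6
    have h9 : (P.map (starRingEnd ℂ)).eval y * aeval y⁻¹ n = P.eval y * aeval y⁻¹ n := by
      rw [h6, h7, h8]; ring
    exact mul_right_cancel₀ hyn' h9
  have h5 : P ∈ lifts (algebraMap ℝ ℂ) := by
    rw [lifts_iff_coeff_lifts]
    intro k
    have h6 := congrArg (fun p => p.coeff k) hbar
    simp only [coeff_map] at h6
    obtain ⟨r, hr⟩ := Complex.conj_eq_iff_real.1 h6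
    exact ⟨r, hr.symm⟩
  obtain ⟨p, hp⟩ := (mem_lifts _).1 h5
  exact ⟨p, hp⟩

/-- a polynomial identity `P(z) = z^N P(1/z)` off finitely many points -/
theorem pal_all (N : ℕ) (P : ℂ[X]) (hP : P.natDegree ≤ N) (S : Set ℂ) (hS : S.Finite)
    (h : ∀ z ∉ S, P.eval z = z ^ N * P.eval z⁻¹) :
    (∀ z : ℂ, z ≠ 0 → P.eval z = z ^ N * P.eval z⁻¹) ∧ ∀ k ≤ N, P.coeff (N - k) = P.coeff k := by
  have h1 : ∀ z : ℂ, z ≠ 0 → z ^ N * P.eval z⁻¹ = (P.reflect N).eval z := by
    intro z hz
    let _ := invertibleOfNonzero (inv_ne_zero hz)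
    have := eval₂_reflect_mul_pow (RingHom.id ℂ) z⁻¹ N P hP
    rw [invOf_eq_inv, inv_inv] at this
    simp only [eval₂_id] at this
    rw [← this, mul_comm, mul_assoc, ← mul_pow, inv_mul_cancel₀ hz, one_pow, mul_one]
  have h2 : P = P.reflect N := by
    apply Polynomial.eq_of_infinite_eval_eq
    refine (Set.Finite.infinite_compl (hS.union (Set.finite_singleton 0))).mono ?_
    intro z hz
    rw [Set.mem_compl_iff, Set.mem_union, not_or] at hz
    rw [Set.mem_ofPred_eq, h z hz.1, h1 z hz.2]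
  refine ⟨fun z hz => ?_, fun k hk => ?_⟩
  · rw [h1 z hz, ← h2]
  · conv_rhs => rw [h2]
    rw [coeff_reflect, revAt_le hk]

theorem aeval_nu (L : ℕ) (z : ℂ) : aeval z (EP.nu L) = (1 + z) ^ (2 * L) * (z ^ 2 + z + 1) := by
  simp [EP.nu]

theorem nu_monic (L : ℕ) : (EP.nu L).Monic := by
  unfold EP.nu
  refine Monic.mul (Monic.pow ?_ _) ?_
  · rw [add_comm]; exact monic_X_add_C 1
  · monicity!

theorem nu_deg (L : ℕ) : (EP.nu L).natDegree ≤ 2 * L + 2 := by
  unfold EP.nu
  refine natDegree_mul_le.trans (add_le_add ?_ (by compute_degree))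
  refine (natDegree_pow_le_of_le (2 * L) (m := 1) (by compute_degree)).trans (by omega)

/-- coefficients as combinations of the values at fixed points -/
theorem coeff_interp (d : ℕ) : ∃ (t : Finset ℂ) (b : ℕ → ℂ → ℂ), ∀ P : ℂ[X], P.natDegree ≤ d →
    ∀ k, P.coeff k = ∑ i ∈ t, P.eval i * b k i := by
  obtain ⟨t, ht, hc⟩ := (Set.infinite_univ (α := ℂ)).exists_subset_card_eq (d + 1)
  refine ⟨t, fun k i => (Lagrange.basis t id i).coeff k, fun P hP k => ?_⟩
  have := Lagrange.eq_interpolate (f := P) (v := id) (s := t) (Set.injOn_id _)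
    (by rw [hc]; exact lt_of_le_of_lt Polynomial.degree_le_natDegree
          (by exact_mod_cast Nat.lt_succ_of_le hP))
  conv_lhs => rw [this]
  rw [Lagrange.interpolate_apply, finsetSum_coeff]
  refine Finset.sum_congr rfl fun i _ => ?_
  rw [coeff_C_mul]
  rfl

/-- the family of the eigenvalue polynomials -/
theorem fam0 (L : ℕ) : ∃ lam : ℝ → ℝ[X], EP.Fam L lam ∧
    ∀ q : ℝ, 0 < q → ∀ z : ℂ, lamE L q z = nT L 0 * aeval z (lam q) := by
  have hn0 := nT_zero_ne L
  have hnu : ∀ z : ℂ, nT L z = nT L 0 * aeval z (EP.nu L) := fun z => by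
    rw [nT_eq, aeval_nu]
  have key : ∀ q : ℝ, 0 < q → ∃ p : ℝ[X], EP.Sol L q p ∧
      ∀ z : ℂ, lamE L q z = nT L 0 * aeval z p := by
    intro q hq
    obtain ⟨P, hP1, hP2, hP3, hP4, hP5, hP6⟩ := lamE_poly L hq
    set P' : ℂ[X] := C ((nT L 0)⁻¹) * P with hP'
    have hdeg : P'.natDegree ≤ 2 * L + 2 := (natDegree_C_mul_le _ _).trans hP1
    have hev : ∀ z, P'.eval z = (nT L 0)⁻¹ * lamE L q z := fun z => by
      rw [hP', eval_mul, eval_C, hP2]
    have hpal := pal_all (2 * L + 2) P' hdeg {0, -w, -w ^ 2} (by simp) (by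
      intro z hz
      simp only [Set.mem_insert_iff, Set.mem_singleton_iff, not_or] at hz
      obtain ⟨z1, z2, z3⟩ := hz
      rw [hev, hev, lamE_even L hq z z1 (mul_ne_zero (fun h => z2 (eq_neg_of_add_eq_zero_left h))
        (fun h => z3 (eq_neg_of_add_eq_zero_left h)))]
      ring)
    obtain ⟨p, hp⟩ := real_of_circle (2 * L + 2) P' (EP.nu L) hdeg hpal.1 (by
        intro z hz
        rw [aeval_nu, aeval_nu, pow_add, mul_mul_mul_comm, ← mul_pow]
        field_simp
        ring) (by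
        intro z hz hz'
        have hn : nT L z ≠ 0 := by rw [hnu]; exact mul_ne_zero hn0 hz'
        have := lamE_re L hq z hz hn
        rw [hev]
        rwa [hnu, ← div_div, div_eq_inv_mul (lamE L q z)] at this) (nu_monic L).ne_zero
    have hpz : ∀ z : ℂ, aeval z p = P'.eval z := fun z => by
      rw [← hp, eval_map_algebraMap]
    have hco : ∀ k, ((p.coeff k : ℝ) : ℂ) = P'.coeff k := fun k => by
      rw [← hp, coeff_map]; rfl
    have hlam : ∀ z : ℂ, lamE L q z = nT L 0 * aeval z p := fun z => by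
      rw [hpz, hev, ← mul_assoc, mul_inv_cancel₀ hn0, one_mul]
    refine ⟨p, ⟨?_, ?_, ?_, ?_, ?_⟩, hlam⟩
    · rw [← natDegree_map (algebraMap ℝ ℂ), hp]
      exact hdeg
    · intro k hk
      have := hpal.2 k hk
      rw [← hco, ← hco] at this
      exact_mod_cast this
    · have : ((p.coeff 0 : ℝ) : ℂ) = ((3 * q - 2 : ℝ) : ℂ) := by
        rw [hco, coeff_zero_eq_eval_zero, hP', eval_mul, eval_C, hP5]
        push_cast
        field_simp
      exact_mod_cast this
    · rw [hpz, hP', eval_mul, eval_C, hP3, hnu w, ← mul_assoc, inv_mul_cancel₀ hn0, one_mul]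
    · -- fusion
      have e1 : EP.Yp L p = C ((nT L 0)⁻¹ ^ 2) *
          (P.comp (-(C w * X)) * P - (nP L).comp (-(C w * X)) * nP L).comp (C w * X) := by
        apply Polynomial.funext
        intro z
        have h1 : ∀ y, P.eval y = nT L 0 * aeval y p := fun y => by rw [hP2, hlam]
        have h2 : ∀ y, (nP L).eval y = nT L 0 * aeval y (EP.nu L) := fun y => by rw [nP_eval, hnu]
        have h3 : -(w * (w * z)) = (1 - w) * z := by linear_combination (-z) * w_sq
        unfold EP.Yp EP.rot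
        simp only [eval_sub, eval_mul, eval_comp, eval_neg, eval_C, eval_X, h1, h2, h3,
          eval_map_algebraMap]
        field_simp
      have e2 : (X - C w) ^ (2 * L + 2) ∣ P.comp (-(C w * X)) * P - (nP L).comp (-(C w * X)) * nP L :=
        hP6
      obtain ⟨A, hA⟩ := e2
      rw [e1, hA]
      rw [mul_comp, pow_comp, sub_comp, X_comp, C_comp]
      have e3 : (C w * X - C w : ℂ[X]) = C w * (X - C 1) := by
        rw [mul_sub, ← C_mul, mul_one]
      rw [e3, mul_pow]
      refine Dvd.intro (C ((nT L 0)⁻¹ ^ 2) * C w ^ (2 * L + 2) * A.comp (C w * X)) ?_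
      ring
  choose! lam hlam using key
  refine ⟨lam, ⟨fun q hq => (hlam q hq).1, ?_, ?_, ?_⟩, fun q hq => (hlam q hq).2⟩
  · -- continuity
    intro k
    obtain ⟨t, b, hb⟩ := coeff_interp (2 * L + 2)
    have h1 : ∀ q ∈ Set.Ioi (0:ℝ), (lam q).coeff k =
        (∑ i ∈ t, (nT L 0)⁻¹ * lamE L q i * b k i).re := by
      intro q hq
      have hq' : 0 < q := hq
      have h2 := hb ((lam q).map (algebraMap ℝ ℂ)) (by
        rw [natDegree_map]; exact (hlam q hq').1.deg) k
      rw [coeff_map] at h2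
      have h3 : ∀ i ∈ t, ((lam q).map (algebraMap ℝ ℂ)).eval i * b k i =
          (nT L 0)⁻¹ * lamE L q i * b k i := by
        intro i _
        rw [eval_map_algebraMap, (hlam q hq').2 i, ← mul_assoc (nT L 0)⁻¹, inv_mul_cancel₀ hn0, one_mul]
      rw [Finset.sum_congr rfl h3] at h2
      rw [← h2]
      simp
    refine ContinuousOn.congr ?_ h1
    refine Complex.continuous_re.comp_continuousOn ?_
    refine continuousOn_finsetSum _ fun i _ => ?_
    exact (continuousOn_const.mul (lamE_cont L i)).mul continuousOn_const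
  · -- `q = 1`
    have h1 : ∀ z : ℂ, aeval z (lam 1) = aeval z (EP.nu L) := by
      intro z
      obtain ⟨C0, hC0⟩ := lamE_lip L z
      have h2 := hC0 1 ⟨by norm_num, by norm_num⟩
      rw [sub_self, abs_zero, mul_zero] at h2
      have h3 := sub_eq_zero.1 (norm_le_zero_iff.1 h2)
      rw [(hlam 1 one_pos).2 z, hnu z] at h3
      exact mul_left_cancel₀ hn0 h3
    have h2 : (lam 1).map (algebraMap ℝ ℂ) = (EP.nu L).map (algebraMap ℝ ℂ) := by
      apply Polynomial.funext
      intro z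
      rw [eval_map_algebraMap, eval_map_algebraMap, h1]
    exact map_injective _ (algebraMap ℝ ℂ).injective h2
  · -- Lipschitz
    obtain ⟨t, b, hb⟩ := coeff_interp (2 * L + 2)
    choose C0 hC0 using lamE_lip L
    refine ⟨∑ k ∈ Finset.range (2 * L + 3), ∑ i ∈ t, ‖(nT L 0)⁻¹‖ * |C0 i| * ‖b k i‖, ?_⟩
    intro q hq k
    have hq' : 0 < q := lt_of_lt_of_le (by norm_num) hq.1
    have hs : ∀ j, 0 ≤ ∑ i ∈ t, ‖(nT L 0)⁻¹‖ * |C0 i| * ‖b j i‖ := fun j =>
      Finset.sum_nonneg fun i _ => by positivity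
    by_cases hk : k < 2 * L + 3
    · have h2 := hb ((lam q - EP.nu L).map (algebraMap ℝ ℂ)) (by
        rw [natDegree_map]
        exact (natDegree_sub_le _ _).trans (max_le (hlam q hq').1.deg (nu_deg L))) k
      rw [coeff_map, coeff_sub] at h2
      have h3 : |(lam q).coeff k - (EP.nu L).coeff k| =
          ‖(algebraMap ℝ ℂ) ((lam q).coeff k - (EP.nu L).coeff k)‖ := by
        rw [Complex.coe_algebraMap, Complex.norm_real, Real.norm_eq_abs]
      rw [h3, h2]
      have h4 : ‖∑ i ∈ t, ((lam q - EP.nu L).map (algebraMap ℝ ℂ)).eval i * b k i‖ ≤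
          (∑ i ∈ t, ‖(nT L 0)⁻¹‖ * |C0 i| * ‖b k i‖) * |q - 1| := by
        rw [Finset.sum_mul]
        refine (norm_sum_le _ _).trans (Finset.sum_le_sum fun i _ => ?_)
        have h5 : ((lam q - EP.nu L).map (algebraMap ℝ ℂ)).eval i =
            (nT L 0)⁻¹ * (lamE L q i - nT L i) := by
          rw [Polynomial.map_sub, eval_sub, eval_map_algebraMap, eval_map_algebraMap,
            (hlam q hq').2 i, hnu i]
          field_simp
        rw [h5, norm_mul, norm_mul]
        have h6 := (hC0 i q hq).trans (mul_le_mul_of_nonneg_right (le_abs_self (C0 i)) (abs_nonneg (q - 1)))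
        calc ‖(nT L 0)⁻¹‖ * ‖lamE L q i - nT L i‖ * ‖b k i‖
            ≤ ‖(nT L 0)⁻¹‖ * (|C0 i| * |q - 1|) * ‖b k i‖ := by gcongr
          _ = _ := by ring
      refine h4.trans (mul_le_mul_of_nonneg_right ?_ (abs_nonneg _))
      exact Finset.single_le_sum (f := fun j => ∑ i ∈ t, ‖(nT L 0)⁻¹‖ * |C0 i| * ‖b j i‖)
        (fun j _ => hs j) (Finset.mem_range.2 hk)
    · rw [coeff_eq_zero_of_natDegree_lt (lt_of_le_of_lt (hlam q hq').1.deg (by omega)),
        coeff_eq_zero_of_natDegree_lt (lt_of_le_of_lt (nu_deg L) (by omega)), sub_self, abs_zero]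
      exact mul_nonneg (Finset.sum_nonneg fun j _ => hs j) (abs_nonneg _)

end CQ
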