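import Pool.Agent.Helper9.CC.Doeb

/-! Coupling of two states (module NEAR). -/

namespace CQ
open CC Finset

/-- `X` and `Y` agree outside of the set `W` which is saturated for both partitions; `J` meets all
the blocks of `X` inside `W`, `J'` meets all the blocks of `Y` inside `W`; the number of the
elements of `J`, `J'` plus the difference of the counters is at most `K`.

This is preserved by `act i` and `Dm` (theorems `near_act`, `near_Dm`).  Detaching `k ∉ W`: nothing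
changes.  Detaching `k ∈ W`: the new set is `W \ {k}`; if `k` was alone then `k` leaves `J` and the
counter changes by at most one, otherwise the counter does not change and `k` is replaced in `J` by
another element of its block.  Joining `j ∈ W` and `k ∉ W`: the new set is `W` with the block of
`k`. -/
def Near (K : ℕ) (X Y : Q) : Prop := ∃ (W : Set ℕ) (J J' : Finset ℕ),
  (∀ x y, X.1.s x y → x ∈ W → y ∈ W) ∧ (∀ x y, Y.1.s x y → x ∈ W → y ∈ W) ∧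
  (∀ x y, x ∉ W → y ∉ W → (X.1.s x y ↔ Y.1.s x y)) ∧
  (∀ x, x ∉ W → (x ∈ X.1.A ↔ x ∈ Y.1.A)) ∧ (∀ x, x ∉ W → (x ∈ X.1.B ↔ x ∈ Y.1.B)) ∧
  (∀ x ∈ W, ∃ j ∈ J, X.1.s x j) ∧ (∀ x ∈ W, ∃ j ∈ J', Y.1.s x j) ∧
  |X.2 - Y.2| + #J + #J' ≤ K

theorem Near.symm {K : ℕ} {X Y : Q} (h : Near K X Y) : Near K Y X := by
  obtain ⟨W, J, J', h1, h2, h3, h4, h5, h6, h7, h8⟩ := h
  refine ⟨W, J', J, h2, h1, fun x y hx hy => (h3 x y hx hy).symm, fun x hx => (h4 x hx).symm,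
    fun x hx => (h5 x hx).symm, h7, h6, ?_⟩
  rw [abs_sub_comm]
  linarith

theorem Near.cnt {K : ℕ} {X Y : Q} (h : Near K X Y) : |X.2 - Y.2| ≤ K := by
  obtain ⟨W, J, J', h1, h2, h3, h4, h5, h6, h7, h8⟩ := h
  have : (0 : ℤ) ≤ #J := by positivity
  have : (0 : ℤ) ≤ #J' := by positivity
  linarith

open Classical in
/-- representatives of the blocks after the site `k` is forgotten -/
theorem near_J (X : Fr) (W : Set ℕ) (J : Finset ℕ) (k : ℕ) (hs : ∀ x y, X.s x y → x ∈ W → y ∈ W)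
    (hJ : ∀ x ∈ W, ∃ j ∈ J, X.s x j) : ∃ J1 : Finset ℕ,
    (∀ x ∈ W, x ≠ k → ∃ j ∈ J1, j ≠ k ∧ X.s x j) ∧
      #J1 + (if k ∈ W ∧ lone X k then 1 else 0) ≤ #J := by
  by_cases hk : k ∈ W
  · by_cases hl : lone X k
    · obtain ⟨j, hj, hkj⟩ := hJ k hk
      have hjk : j = k := hl j hkj
      subst hjk
      refine ⟨J.erase j, fun x hx hxk => ?_, ?_⟩
      · obtain ⟨i, hi, hxi⟩ := hJ x hx
        have hij : i ≠ j := by
          rintro rfl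
          exact hxk (hl x (X.s.symm hxi))
        exact ⟨i, mem_erase.2 ⟨hij, hi⟩, hij, hxi⟩
      · rw [if_pos ⟨hk, hl⟩, card_erase_of_mem hj]
        have := card_pos.2 ⟨j, hj⟩
        omega
    · have hl' : ∃ m, X.s k m ∧ m ≠ k := by
        unfold lone at hl
        push Not at hl
        exact hl
      obtain ⟨m, hm, hmk⟩ := hl'
      refine ⟨J.image (fun j => if j = k then m else j), fun x hx hxk => ?_, ?_⟩
      · obtain ⟨i, hi, hxi⟩ := hJ x hx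
        by_cases hik : i = k
        · subst hik
          exact ⟨m, mem_image.2 ⟨i, hi, by rw [if_pos rfl]⟩, hmk, X.s.trans hxi hm⟩
        · exact ⟨i, mem_image.2 ⟨i, hi, by rw [if_neg hik]⟩, hik, hxi⟩
      · rw [if_neg (fun h => hl h.2), add_zero]
        exact card_image_le
  · refine ⟨J, fun x hx _ => ?_, ?_⟩
    · obtain ⟨i, hi, hxi⟩ := hJ x hx
      exact ⟨i, hi, fun h => hk (h ▸ hs x i hxi hx), hxi⟩
    · rw [if_neg (fun h => hk h.1), add_zero]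

theorem near_lone {X Y : Fr} {W : Set ℕ} {k : ℕ} (hk : k ∉ W)
    (h1 : ∀ x y, X.s x y → x ∈ W → y ∈ W)
    (h3 : ∀ x y, x ∉ W → y ∉ W → (X.s x y ↔ Y.s x y)) (h : lone Y k) : lone X k := by
  intro y hy
  have hyW : y ∉ W := fun h => hk (h1 y k (X.s.symm hy) h)
  exact h y ((h3 k y hk hyW).1 hy)

theorem near_aux {x y c d : ℤ} {a a' b b' K : ℕ} (hc : 0 ≤ c) (hd : 0 ≤ d) (h1 : c + a' ≤ a)
    (h2 : d + b' ≤ b) (h : |x - y| + a + b ≤ K) : |x + c - (y + d)| + a' + b' ≤ K := by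
  have h3 : |x + c - (y + d)| ≤ |x - y| + c + d :=
    abs_le.2 ⟨by linarith [neg_abs_le (x - y)], by linarith [le_abs_self (x - y)]⟩
  linarith

open Classical in
theorem near_even {K : ℕ} (k : ℕ) {X Y : Q} (h : Near K X Y) :
    Near K (detF k X.1, X.2 + if lone X.1 k ∧ k ∈ X.1.A ∧ k ∈ X.1.B then 1 else 0)
      (detF k Y.1, Y.2 + if lone Y.1 k ∧ k ∈ Y.1.A ∧ k ∈ Y.1.B then 1 else 0) := by
  obtain ⟨W, J, J', h1, h2, h3, h4, h5, h6, h7, h8⟩ := h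
  obtain ⟨J1, a1, a2⟩ := near_J X.1 W J k h1 h6
  obtain ⟨J1', b1, b2⟩ := near_J Y.1 W J' k h2 h7
  refine ⟨{x | x ∈ W ∧ x ≠ k}, J1, J1', ?_, ?_, ?_, ?_, ?_, ?_, ?_, ?_⟩
  · rintro x y (rfl | ⟨_, hy, hs⟩) ⟨hx1, hx2⟩
    · exact ⟨hx1, hx2⟩
    · exact ⟨h1 x y hs hx1, hy⟩
  · rintro x y (rfl | ⟨_, hy, hs⟩) ⟨hx1, hx2⟩
    · exact ⟨hx1, hx2⟩
    · exact ⟨h2 x y hs hx1, hy⟩
  · intro x y hx hy
    have e : x ≠ k → y ≠ k → (X.1.s x y ↔ Y.1.s x y) := fun hxk hyk =>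
      h3 x y (fun h => hx ⟨h, hxk⟩) (fun h => hy ⟨h, hyk⟩)
    constructor
    · rintro (rfl | ⟨h9, h10, h11⟩)
      · exact Or.inl rfl
      · exact Or.inr ⟨h9, h10, (e h9 h10).1 h11⟩
    · rintro (rfl | ⟨h9, h10, h11⟩)
      · exact Or.inl rfl
      · exact Or.inr ⟨h9, h10, (e h9 h10).2 h11⟩
  · intro x hx
    constructor
    · rintro ⟨h9, h10⟩
      exact ⟨(h4 x fun h => hx ⟨h, h10⟩).1 h9, h10⟩
    · rintro ⟨h9, h10⟩
      exact ⟨(h4 x fun h => hx ⟨h, h10⟩).2 h9, h10⟩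
  · intro x hx
    constructor
    · rintro ⟨h9, h10⟩
      exact ⟨(h5 x fun h => hx ⟨h, h10⟩).1 h9, h10⟩
    · rintro ⟨h9, h10⟩
      exact ⟨(h5 x fun h => hx ⟨h, h10⟩).2 h9, h10⟩
  · rintro x ⟨hx1, hx2⟩
    obtain ⟨j, hj, hjk, hxj⟩ := a1 x hx1 hx2
    exact ⟨j, hj, Or.inr ⟨hx2, hjk, hxj⟩⟩
  · rintro x ⟨hx1, hx2⟩
    obtain ⟨j, hj, hjk, hxj⟩ := b1 x hx1 hx2
    exact ⟨j, hj, Or.inr ⟨hx2, hjk, hxj⟩⟩
  · by_cases hk : k ∈ W
    · have a3 : (if lone X.1 k ∧ k ∈ X.1.A ∧ k ∈ X.1.B then (1:ℤ) else 0) + #J1 ≤ #J := by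
        split_ifs with hc
        · rw [if_pos ⟨hk, hc.1⟩] at a2
          omega
        · have : #J1 ≤ #J := by omega
          omega
      have b3 : (if lone Y.1 k ∧ k ∈ Y.1.A ∧ k ∈ Y.1.B then (1:ℤ) else 0) + #J1' ≤ #J' := by
        split_ifs with hc
        · rw [if_pos ⟨hk, hc.1⟩] at b2
          omega
        · have : #J1' ≤ #J' := by omega
          omega
      have c1 : 0 ≤ (if lone X.1 k ∧ k ∈ X.1.A ∧ k ∈ X.1.B then (1:ℤ) else 0) := by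
        split_ifs <;> norm_num
      have c2 : 0 ≤ (if lone Y.1 k ∧ k ∈ Y.1.A ∧ k ∈ Y.1.B then (1:ℤ) else 0) := by
        split_ifs <;> norm_num
      exact near_aux c1 c2 a3 b3 h8
    · have e : (lone X.1 k ∧ k ∈ X.1.A ∧ k ∈ X.1.B) ↔ (lone Y.1 k ∧ k ∈ Y.1.A ∧ k ∈ Y.1.B) := by
        rw [h4 k hk, h5 k hk]
        constructor
        · rintro ⟨h9, h10⟩
          exact ⟨near_lone hk h2 (fun x y hx hy => (h3 x y hx hy).symm) h9, h10⟩
        · rintro ⟨h9, h10⟩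
          exact ⟨near_lone hk h1 h3 h9, h10⟩
      have a3 : #J1 ≤ #J := by omega
      have b3 : #J1' ≤ #J' := by omega
      simp only [e, add_sub_add_right_eq_sub]
      have a4 : (#J1 : ℤ) ≤ #J := by exact_mod_cast a3
      have b4 : (#J1' : ℤ) ≤ #J' := by exact_mod_cast b3
      linarith

theorem near_join {K : ℕ} (j k : ℕ) {X Y : Q} (h : Near K X Y) :
    Near K (joinF j k X.1, X.2) (joinF j k Y.1, Y.2) := by
  obtain ⟨W, J, J', h1, h2, h3, h4, h5, h6, h7, h8⟩ := h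
  -- the symmetric forms of the saturation
  have s1 : ∀ x y, X.1.s x y → y ∈ W → x ∈ W := fun x y hxy => h1 y x (X.1.s.symm hxy)
  have s2 : ∀ x y, Y.1.s x y → y ∈ W → x ∈ W := fun x y hxy => h2 y x (Y.1.s.symm hxy)
  -- the new set
  have hW : ∀ x : ℕ, (j ∈ W ∨ k ∈ W) → x ∉ W → ((X.1.s x j ∨ X.1.s x k) ↔ (Y.1.s x j ∨ Y.1.s x k)) := by
    intro x hjk hx
    by_cases hj : j ∈ W
    · have e1 : ¬ X.1.s x j := fun h => hx (s1 x j h hj)
      have e2 : ¬ Y.1.s x j := fun h => hx (s2 x j h hj)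
      by_cases hk : k ∈ W
      · have e3 : ¬ X.1.s x k := fun h => hx (s1 x k h hk)
        have e4 : ¬ Y.1.s x k := fun h => hx (s2 x k h hk)
        simp [e1, e2, e3, e4]
      · simp [e1, e2, h3 x k hx hk]
    · have hk : k ∈ W := hjk.resolve_left hj
      have e3 : ¬ X.1.s x k := fun h => hx (s1 x k h hk)
      have e4 : ¬ Y.1.s x k := fun h => hx (s2 x k h hk)
      simp [e3, e4, h3 x j hx hj]
  set W' : Set ℕ := {x | x ∈ W ∨ ((j ∈ W ∨ k ∈ W) ∧ (X.1.s x j ∨ X.1.s x k))} with hW'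
  have hWY : ∀ x, x ∈ W' ↔ x ∈ W ∨ ((j ∈ W ∨ k ∈ W) ∧ (Y.1.s x j ∨ Y.1.s x k)) := by
    intro x
    by_cases hx : x ∈ W
    · simp [hW', hx]
    · by_cases hjk : j ∈ W ∨ k ∈ W
      · have := hW x hjk hx
        simp only [hW', Set.mem_ofPred_eq, hx, false_or, hjk, true_and]
        exact this
      · simp [hW', hx, hjk]
  have hWX : ∀ x, x ∈ W' ↔ x ∈ W ∨ ((j ∈ W ∨ k ∈ W) ∧ (X.1.s x j ∨ X.1.s x k)) := fun x => Iff.rfl
  -- saturation, for a general partition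
  have sat : ∀ s : Setoid ℕ, (∀ x y, s x y → x ∈ W → y ∈ W) →
      (∀ x, x ∈ W' ↔ x ∈ W ∨ ((j ∈ W ∨ k ∈ W) ∧ (s x j ∨ s x k))) →
      ∀ x y, IP.join j k s x y → x ∈ W' → y ∈ W' := by
    intro s hs hws x y hxy hx
    rw [hws] at hx ⊢
    rcases hxy with h | ⟨ha, hb⟩ | ⟨ha, hb⟩
    · rcases hx with hx | ⟨hx, hx'⟩
      · exact Or.inl (hs x y h hx)
      · exact Or.inr ⟨hx, hx'.imp (fun h' => s.trans (s.symm h) h') (fun h' => s.trans (s.symm h) h')⟩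
    · rcases hx with hx | ⟨hx, -⟩
      · exact Or.inr ⟨Or.inl (hs x j ha hx), Or.inr (s.symm hb)⟩
      · exact Or.inr ⟨hx, Or.inr (s.symm hb)⟩
    · rcases hx with hx | ⟨hx, -⟩
      · exact Or.inr ⟨Or.inr (hs x k ha hx), Or.inl (s.symm hb)⟩
      · exact Or.inr ⟨hx, Or.inl (s.symm hb)⟩
  -- representatives
  have rep : ∀ (s : Setoid ℕ) (J : Finset ℕ), 
      (∀ x, x ∈ W' ↔ x ∈ W ∨ ((j ∈ W ∨ k ∈ W) ∧ (s x j ∨ s x k))) →
      (∀ x ∈ W, ∃ i ∈ J, s x i) → ∀ x ∈ W', ∃ i ∈ J, IP.join j k s x i := by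
    intro s J hws hJ x hx
    rw [hws] at hx
    rcases hx with hx | ⟨hx, hx'⟩
    · obtain ⟨i, hi, hxi⟩ := hJ x hx
      exact ⟨i, hi, Or.inl hxi⟩
    · rcases hx with hx | hx
      · obtain ⟨i, hi, hxi⟩ := hJ j hx
        rcases hx' with hx' | hx'
        · exact ⟨i, hi, Or.inl (s.trans hx' hxi)⟩
        · exact ⟨i, hi, Or.inr (Or.inr ⟨hx', hxi⟩)⟩
      · obtain ⟨i, hi, hxi⟩ := hJ k hx
        rcases hx' with hx' | hx'
        · exact ⟨i, hi, Or.inr (Or.inl ⟨hx', hxi⟩)⟩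
        · exact ⟨i, hi, Or.inl (s.trans hx' hxi)⟩
  -- outside of `W'`
  have out : ∀ x, x ∉ W' → x ∉ W ∧ ((j ∉ W ∧ k ∉ W) ∨ (¬ X.1.s x j ∧ ¬ X.1.s x k ∧ ¬ Y.1.s x j ∧
      ¬ Y.1.s x k)) := by
    intro x hx
    have e1 := (hWX x).not.1 hx
    have e2 := (hWY x).not.1 hx
    push Not at e1 e2
    refine ⟨e1.1, ?_⟩
    by_cases hjk : j ∈ W ∨ k ∈ W
    · exact Or.inr ⟨(e1.2 hjk).1, (e1.2 hjk).2, (e2.2 hjk).1, (e2.2 hjk).2⟩
    · rw [not_or] at hjk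
      exact Or.inl hjk
  -- marks
  have mark : ∀ CX CY : Set ℕ, (∀ x, x ∉ W → (x ∈ CX ↔ x ∈ CY)) → ∀ x, x ∉ W' →
      ((x ∈ CX ∨ (X.1.s x j ∧ k ∈ CX) ∨ (X.1.s x k ∧ j ∈ CX)) ↔
        (x ∈ CY ∨ (Y.1.s x j ∧ k ∈ CY) ∨ (Y.1.s x k ∧ j ∈ CY))) := by
    intro CX CY hC x hx
    obtain ⟨o1, o2⟩ := out x hx
    rcases o2 with ⟨o2, o3⟩ | ⟨o2, o3, o4, o5⟩
    · rw [hC x o1, hC k o3, hC j o2, h3 x j o1 o2, h3 x k o1 o3]
    · simp [o2, o3, o4, o5, hC x o1]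
  refine ⟨W', J, J', sat X.1.s h1 hWX, sat Y.1.s h2 hWY, ?_, mark X.1.A Y.1.A h4, mark X.1.B Y.1.B h5,
    rep X.1.s J hWX h6, rep Y.1.s J' hWY h7, h8⟩
  intro x y hx hy
  obtain ⟨o1, o2⟩ := out x hx
  obtain ⟨p1, p2⟩ := out y hy
  change (X.1.s x y ∨ (X.1.s x j ∧ X.1.s k y) ∨ (X.1.s x k ∧ X.1.s j y)) ↔
    (Y.1.s x y ∨ (Y.1.s x j ∧ Y.1.s k y) ∨ (Y.1.s x k ∧ Y.1.s j y))
  rcases o2 with ⟨o2, o3⟩ | ⟨o2, o3, o4, o5⟩
  · rw [h3 x y o1 p1, h3 x j o1 o2, h3 x k o1 o3, h3 k y o3 p1, h3 j y o2 p1]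
  · simp [o2, o3, o4, o5, h3 x y o1 p1]

theorem near_act {K : ℕ} (i : ℕ) {X Y : Q} (h : Near K X Y) : Near K (act i X) (act i Y) := by
  by_cases hi : i % 2 = 0
  · have h1 := near_even (i / 2) h
    unfold act
    rw [if_pos hi, if_pos hi]
    exact h1
  · have h1 := near_join (i / 2) (i / 2 + 1) h
    unfold act
    rw [if_neg hi, if_neg hi]
    exact h1

theorem near_Dm {K : ℕ} {X Y : Q} (h : Near K X Y) : Near K (Dm X) (Dm Y) := by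
  classical
  obtain ⟨W, J, J', h1, h2, h3, h4, h5, h6, h7, h8⟩ := h
  obtain ⟨J1, a1, a2⟩ := near_J X.1 W J 0 h1 h6
  obtain ⟨J1', b1, b2⟩ := near_J Y.1 W J' 0 h2 h7
  refine ⟨{x | x + 1 ∈ W}, J1.image Nat.pred, J1'.image Nat.pred, fun x y hxy hx => h1 _ _ hxy hx,
    fun x y hxy hx => h2 _ _ hxy hx, fun x y hx hy => h3 _ _ hx hy, ?_, fun x hx => h5 _ hx,
    ?_, ?_, ?_⟩
  · intro x hx
    change (x + 1 ∈ X.1.A ∨ X.1.s (x + 1) 0) ↔ (x + 1 ∈ Y.1.A ∨ Y.1.s (x + 1) 0)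
    rw [h4 (x + 1) hx]
    by_cases h0 : 0 ∈ W
    · have e1 : ¬ X.1.s (x + 1) 0 := fun h => hx (h1 0 (x + 1) (X.1.s.symm h) h0)
      have e2 : ¬ Y.1.s (x + 1) 0 := fun h => hx (h2 0 (x + 1) (Y.1.s.symm h) h0)
      simp [e1, e2]
    · rw [h3 (x + 1) 0 hx h0]
  · intro x hx
    obtain ⟨j, hj, hj0, hxj⟩ := a1 (x + 1) hx (Nat.succ_ne_zero x)
    obtain ⟨i, rfl⟩ := Nat.exists_eq_succ_of_ne_zero hj0
    exact ⟨i, mem_image.2 ⟨i.succ, hj, rfl⟩, hxj⟩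
  · intro x hx
    obtain ⟨j, hj, hj0, hxj⟩ := b1 (x + 1) hx (Nat.succ_ne_zero x)
    obtain ⟨i, rfl⟩ := Nat.exists_eq_succ_of_ne_zero hj0
    exact ⟨i, mem_image.2 ⟨i.succ, hj, rfl⟩, hxj⟩
  · have i1 : #(J1.image Nat.pred) ≤ #J1 := card_image_le
    have i2 : #(J1'.image Nat.pred) ≤ #J1' := card_image_le
    unfold Dm
    by_cases hk : 0 ∈ W
    · have a3 : (if lone X.1 0 ∧ 0 ∈ X.1.B then (1:ℤ) else 0) + #(J1.image Nat.pred) ≤ #J := by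
        split_ifs with hc
        · rw [if_pos ⟨hk, hc.1⟩] at a2
          omega
        · have : #J1 ≤ #J := by omega
          omega
      have b3 : (if lone Y.1 0 ∧ 0 ∈ Y.1.B then (1:ℤ) else 0) + #(J1'.image Nat.pred) ≤ #J' := by
        split_ifs with hc
        · rw [if_pos ⟨hk, hc.1⟩] at b2
          omega
        · have : #J1' ≤ #J' := by omega
          omega
      have c1 : 0 ≤ (if lone X.1 0 ∧ 0 ∈ X.1.B then (1:ℤ) else 0) := by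
        split_ifs <;> norm_num
      have c2 : 0 ≤ (if lone Y.1 0 ∧ 0 ∈ Y.1.B then (1:ℤ) else 0) := by
        split_ifs <;> norm_num
      convert near_aux c1 c2 a3 b3 h8
    · have e : (lone X.1 0 ∧ 0 ∈ X.1.B) ↔ (lone Y.1 0 ∧ 0 ∈ Y.1.B) := by
        rw [h5 0 hk]
        constructor
        · rintro ⟨h9, h10⟩
          exact ⟨near_lone hk h2 (fun x y hx hy => (h3 x y hx hy).symm) h9, h10⟩
        · rintro ⟨h9, h10⟩
          exact ⟨near_lone hk h1 h3 h9, h10⟩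
      have a3 : #J1 ≤ #J := by omega
      have b3 : #J1' ≤ #J' := by omega
      simp only [e, add_sub_add_right_eq_sub]
      have a4 : (#(J1.image Nat.pred) : ℤ) ≤ #J := by exact_mod_cast i1.trans a3
      have b4 : (#(J1'.image Nat.pred) : ℤ) ≤ #J' := by exact_mod_cast i2.trans b3
      linarith

/-- `W = {k | 2 * k < L}`, `J = J' = range ((L + 1) / 2)` -/
theorem near_mem {L : ℕ} {X Y : Q} (hX : X ∈ Rset L) (hY : Y ∈ Rset L) (h : X.2 = Y.2) :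
    Near (L + 1) X Y := by
  have sat : ∀ X ∈ Rset L, ∀ x y, X.1.s x y → x ∈ {k | 2 * k < L} → y ∈ {k | 2 * k < L} := by
    intro X hX x y hxy hx
    rw [Set.mem_ofPred_eq] at hx ⊢
    by_contra hy
    have h1 := ((hX y).1 (by omega)).1 x (X.1.s.symm hxy)
    omega
  refine ⟨{k | 2 * k < L}, range ((L + 1) / 2), range ((L + 1) / 2), sat X hX, sat Y hY, ?_, ?_, ?_,
    ?_, ?_, ?_⟩
  · intro x y hx hy
    rw [Set.mem_ofPred_eq, not_lt] at hx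
    constructor
    · intro h1
      rw [((hX x).1 hx).1 y h1]
    · intro h1
      rw [((hY x).1 hx).1 y h1]
  · intro x hx
    rw [Set.mem_ofPred_eq, not_lt] at hx
    exact iff_of_false ((hX x).1 hx).2 ((hY x).1 hx).2
  · intro x hx
    rw [Set.mem_ofPred_eq, not_lt] at hx
    exact iff_of_true ((hX x).2 (by omega)) ((hY x).2 (by omega))
  · intro x hx
    rw [Set.mem_ofPred_eq] at hx
    exact ⟨x, mem_range.2 (by omega), X.1.s.refl _⟩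
  · intro x hx
    rw [Set.mem_ofPred_eq] at hx
    exact ⟨x, mem_range.2 (by omega), Y.1.s.refl _⟩
  · rw [h, sub_self, abs_zero, card_range]
    push_cast
    omega

end CQ
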