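import Pool.Agent.Helper9.CQ.Near

/-! The stochastic transfer matrix as an average over finitely many maps (module WORDS). -/

namespace CQ
open CC Finset

/-- good maps -/
def WG (k : ℕ) (f : Q → Q) : Prop := (∀ X, f (sh X) = sh (f X)) ∧
  (∀ K X Y, Near K X Y → Near K (f X) (f Y)) ∧ ∀ X : Q, X.2 ≤ (f X).2 ∧ (f X).2 ≤ X.2 + (k : ℤ)

theorem WG_comp {k l : ℕ} {f g : Q → Q} (hf : WG k f) (hg : WG l g) : WG (k + l) (f ∘ g) := by
  refine ⟨fun X => ?_, fun K X Y h => hf.2.1 K _ _ (hg.2.1 K _ _ h), fun X => ?_⟩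
  · show f (g (sh X)) = sh (f (g X))
    rw [hg.1, hf.1]
  · have h1 := hg.2.2 X
    have h2 := hf.2.2 (g X)
    show X.2 ≤ (f (g X)).2 ∧ (f (g X)).2 ≤ X.2 + ((k + l : ℕ) : ℤ)
    push_cast
    constructor <;> omega

theorem WG_mono {k l : ℕ} (h : k ≤ l) {f : Q → Q} (hf : WG k f) : WG l f := by
  refine ⟨hf.1, hf.2.1, fun X => ?_⟩
  have h1 := hf.2.2 X
  constructor <;> omega

theorem WG_act (i : ℕ) : WG 1 (act i) := by
  refine ⟨act_sh i, fun K X Y h => near_act i h, fun X => ?_⟩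
  unfold act
  split_ifs <;> simp

theorem WG_Dm : WG 1 Dm := by
  refine ⟨Dm_sh, fun K X Y h => near_Dm h, fun X => ?_⟩
  unfold Dm
  split_ifs <;> simp

theorem WG_id : WG 0 id := ⟨fun _ => rfl, fun _ _ _ h => h, fun X => by simp⟩

theorem WG_fst {k : ℕ} {f : Q → Q} (hf : WG k f) (F : Fr) (c c' : ℤ) :
    (f (F, c)).1 = (f (F, c')).1 := by
  have key : ∀ c : ℤ, (f (F, c)).1 = (f (F, 0)).1 := by
    intro c
    induction c using Int.induction_on with
    | zero => rfl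
    | succ i hi =>
      rw [← hi]
      have := hf.1 (F, (i:ℤ))
      rw [show sh (F, (i:ℤ)) = (F, (i:ℤ) + 1) from rfl] at this
      rw [this]
      rfl
    | pred i hi =>
      rw [← hi]
      have := hf.1 (F, -(i:ℤ) - 1)
      rw [show sh (F, -(i:ℤ) - 1) = (F, -(i:ℤ) - 1 + 1) from rfl,
        show -(i:ℤ) - 1 + 1 = -(i:ℤ) by ring] at this
      rw [this]
      rfl
  rw [key c, key c']

theorem WG_row (o k : ℕ) : ∃ (ι : Type) (_ : Fintype ι) (φ : ι → Q → Q), Fintype.card ι = 2 ^ k ∧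
    (∀ h X, av o k h X = (2 ^ k : ℂ)⁻¹ * ∑ a, h (φ a X)) ∧ (∀ a, WG k (φ a)) ∧
    (∀ a m, o + k + 1 ≤ m → ∀ X ∈ Rset m, φ a X ∈ Rset m) ∧ ∃ a, o = 0 → φ a = sp k := by
  induction k with
  | zero =>
    refine ⟨Unit, inferInstance, fun _ => id, rfl, fun h X => ?_, fun _ => WG_id,
      fun _ _ _ _ hX => hX, (), fun _ => ?_⟩
    · simp [av]
    · funext X; rfl
  | succ k ih =>
    obtain ⟨ι, hι, φ, h1, h2, h3, h4, a0, h5⟩ := ih
    refine ⟨ι ⊕ ι, inferInstance, fun a => a.elim φ (fun a => φ a ∘ act (o + k)), ?_, fun h X => ?_,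
      ?_, ?_, ?_⟩
    · rw [Fintype.card_sum, h1]; ring
    · rw [Fintype.sum_sum_type]
      simp only [av, Sum.elim_inl, Sum.elim_inr, Function.comp_apply]
      rw [h2, h2, pow_succ, mul_inv]
      ring
    · rintro (a | a)
      · exact WG_mono (Nat.le_succ k) (h3 a)
      · exact (WG_comp (h3 a) (WG_act (o + k)) :)
    · rintro (a | a) m hm X hX
      · exact h4 a m (by omega) X hX
      · exact h4 a m (by omega) _ (act_mem (by omega) hX)
    · rcases Nat.mod_two_eq_zero_or_one k with hk | hk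
      · refine ⟨Sum.inr a0, fun ho => ?_⟩
        funext X
        simp only [Sum.elim_inr, Function.comp_apply, h5 ho, sp, hk, if_true, ho, zero_add]
      · refine ⟨Sum.inl a0, fun ho => ?_⟩
        funext X
        simp only [Sum.elim_inl, h5 ho, sp, hk, one_ne_zero, if_false]

/-- the `4 ^ L` maps of the double row -/
theorem words (L : ℕ) : ∃ φ : Fin (4 ^ L) → Q → Q,
    (∀ (g : Q → ℂ) (x : M), itg g (Ts L x) = itg (fun X => (4 ^ L : ℂ)⁻¹ * ∑ a, g (φ a X)) x) ∧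
    (∀ a X, φ a (sh X) = sh (φ a X)) ∧
    (∀ a K X Y, Near K X Y → Near K (φ a X) (φ a Y)) ∧
    (∀ a, ∀ X ∈ Rset L, φ a X ∈ Rset L) ∧
    (∀ a X, X.2 ≤ (φ a X).2 ∧ (φ a X).2 ≤ X.2 + (2 * L + 1)) ∧
    ∃ a, ∀ X ∈ Rset L, ∀ Y ∈ Rset L, (φ a X).1 = (φ a Y).1 := by
  obtain ⟨ι, hι, φ, h1, h2, h3, h4, a0, h5⟩ := WG_row 0 L
  obtain ⟨κ, hκ, ψ, g1, g2, g3, g4, b0, -⟩ := WG_row 1 L
  have hc : Fintype.card (ι × κ) = 4 ^ L := by
    rw [Fintype.card_prod, h1, g1, ← mul_pow]; norm_num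
  let e : ι × κ ≃ Fin (4 ^ L) := Fintype.equivFinOfCardEq hc
  let f : ι × κ → Q → Q := fun p => Dm ∘ (ψ p.2 ∘ φ p.1)
  have hf : ∀ p, WG (1 + (L + L)) (f p) := fun p => WG_comp WG_Dm (WG_comp (g3 p.2) (h3 p.1))
  refine ⟨fun a => f (e.symm a), fun g x => ?_, fun a X => (hf _).1 X, fun a K X Y h => (hf _).2.1 K X Y h,
    fun a X hX => ?_, fun a X => ?_, e (a0, b0), fun X hX Y hY => ?_⟩
  · refine lin_ext (f := itg g ∘ₗ Ts L) (g := itg (fun X => (4 ^ L : ℂ)⁻¹ * ∑ a, g (f (e.symm a) X)))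
      (fun X => ?_) x
    rw [LinearMap.comp_apply, itg_single, mul_one, itg_Ts, h2]
    rw [e.symm.sum_comp (fun p => g (f p X)), Fintype.sum_prod_type, Finset.mul_sum, Finset.mul_sum]
    refine Finset.sum_congr rfl fun a _ => ?_
    rw [g2, ← mul_assoc, ← mul_inv, ← mul_pow]
    norm_num
    rfl
  · show Dm (ψ _ (φ _ X)) ∈ Rset L
    exact Dm_mem (g4 _ (L + 2) (by omega) _ (h4 _ (L + 2) (by omega) _ (Rset_mono (by omega) hX)))
  · have := (hf (e.symm a)).2.2 X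
    refine ⟨this.1, this.2.trans ?_⟩
    push_cast
    linarith
  · simp only [Equiv.symm_apply_apply]
    show (Dm (ψ b0 (φ a0 X))).1 = (Dm (ψ b0 (φ a0 Y))).1
    rw [h5 rfl]
    have hs := sp_eq hX hY
    have := WG_fst (WG_comp WG_Dm (g3 b0)) (sp L X).1 (sp L X).2 (sp L Y).2
    simp only [Function.comp_apply] at this
    rw [show sp L Y = ((sp L X).1, (sp L Y).2) by rw [hs]]
    rw [← this]

end CQ
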